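import Mathlib

/-!
Weights on `ℂⁿ`, the space `𝒪(δ)`, its inductive limit topology, restrictions and bornological limits
(Ferrier).
-/

set_option autoImplicit false

open Filter Topology Metric

namespace Pool.Agent.X170.Fer

/-- `ℂⁿ` with its Hermitian norm. -/
abbrev Cn (n : ℕ) := EuclideanSpace ℂ (Fin n)

/-- A weight: a continuous function `δ : ℂⁿ → [0,∞)` which tends to `0` at infinity. -/
structure Weight (n : ℕ) where
  toFun : Cn n → ℝ
  cont : Continuous toFun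
  nonneg : ∀ z, 0 ≤ toFun z
  lim : Tendsto toFun (cocompact (Cn n)) (𝓝 0)

instance (n : ℕ) : CoeFun (Weight n) (fun _ => Cn n → ℝ) := ⟨Weight.toFun⟩

theorem Weight.bdd {n : ℕ} (δ : Weight n) : ∃ B : ℝ, 0 ≤ B ∧ ∀ z, δ z ≤ B := by
  have h1 : ∀ᶠ z in cocompact (Cn n), δ z < 1 := (tendsto_order.1 δ.lim).2 1 zero_lt_one
  rw [Filter.Eventually, mem_cocompact] at h1
  obtain ⟨K, hK, hK2⟩ := h1
  obtain ⟨B, hB⟩ := (hK.image δ.cont).bddAbove
  refine ⟨max B 1, le_trans zero_le_one (le_max_right _ _), fun z => ?_⟩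
  by_cases hz : z ∈ K
  · exact (hB ⟨z, hz, rfl⟩).trans (le_max_left _ _)
  · exact (le_of_lt (hK2 hz)).trans (le_max_right _ _)

/-- The space `𝒪(δ)`: functions holomorphic on `S_δ = {δ > 0}` (and extended by `0` outside `S_δ`)
with `δ^N |u|` bounded on `S_δ` for some `N`. -/
def O {n : ℕ} (δ : Weight n) : Submodule ℂ (Cn n → ℂ) where
  carrier := {u | (∀ z, δ z = 0 → u z = 0) ∧ DifferentiableOn ℂ u {z | 0 < δ z} ∧
    ∃ (N : ℕ) (C : ℝ), ∀ z, 0 < δ z → δ z ^ N * ‖u z‖ ≤ C}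
  zero_mem' := by
    refine ⟨fun z _ => rfl, differentiableOn_const 0, 0, 0, fun z _ => by simp⟩
  add_mem' := by
    rintro u v ⟨hu0, hu1, N, C, hu2⟩ ⟨hv0, hv1, M, D, hv2⟩
    refine ⟨fun z hz => by simp [hu0 z hz, hv0 z hz], hu1.add hv1, ?_⟩
    obtain ⟨B, hB0, hB⟩ := δ.bdd
    refine ⟨N + M, B ^ M * C + B ^ N * D, fun z hz => ?_⟩
    have h1 := hu2 z hz
    have h2 := hv2 z hz
    have hC : 0 ≤ C := le_trans (by positivity) h1
    have hD : 0 ≤ D := le_trans (by positivity) h2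
    calc δ z ^ (N + M) * ‖(u + v) z‖ ≤ δ z ^ (N + M) * (‖u z‖ + ‖v z‖) := by
          gcongr
          exact norm_add_le _ _
      _ = δ z ^ M * (δ z ^ N * ‖u z‖) + δ z ^ N * (δ z ^ M * ‖v z‖) := by ring
      _ ≤ B ^ M * C + B ^ N * D := by
          have := hB z
          gcongr
  smul_mem' := by
    rintro c u ⟨hu0, hu1, N, C, hu2⟩
    refine ⟨fun z hz => by simp [hu0 z hz], hu1.const_smul c, N, ‖c‖ * C, fun z hz => ?_⟩
    calc δ z ^ N * ‖(c • u) z‖ = ‖c‖ * (δ z ^ N * ‖u z‖) := by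
          simp only [Pi.smul_apply, smul_eq_mul, norm_mul]; ring
      _ ≤ ‖c‖ * C := by
          have := hu2 z hz
          gcongr

/-- A topology `t` on `𝒪(δ)` is admissible if it is a locally convex vector space topology and every
inclusion `E_N(δ) → 𝒪(δ)` is continuous for the norm `sup_{S_δ} δ^N |u|` of `E_N(δ)`. -/
def Admissible {n : ℕ} (δ : Weight n) (t : TopologicalSpace (O δ)) : Prop :=
  @IsTopologicalAddGroup (O δ) t _ ∧ @ContinuousSMul ℂ (O δ) _ _ t ∧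
  @LocallyConvexSpace ℝ (O δ) _ _ _ _ t ∧
  ∀ (N : ℕ), ∀ V ∈ @nhds (O δ) t 0, ∃ ε > 0, ∀ u : O δ,
    (∀ z, 0 < δ z → δ z ^ N * ‖(u : Cn n → ℂ) z‖ ≤ ε) → u ∈ V

/-- The locally convex inductive limit topology of the spaces `E_N(δ)`: the finest admissible
topology (it is again admissible). -/
@[reducible] def indTop {n : ℕ} (δ : Weight n) : TopologicalSpace (O δ) :=
  sInf {t | Admissible δ t}

/-- The set `R` of restrictions to `S_δ'` of the elements of `𝒪(δ)` (inside `𝒪(δ')`). -/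
def R {n : ℕ} (δ δ' : Weight n) : Set (O δ') :=
  {v | ∃ u ∈ O δ, ∀ z, 0 < δ' z → (v : Cn n → ℂ) z = u z}

/-- The set `L` of the bornological limits in `𝒪(δ')` of sequences of elements of `R`:
`‖v_k - u‖_N → 0` for some fixed `N`. -/
def L {n : ℕ} (δ δ' : Weight n) : Set (O δ') :=
  {u | ∃ v : ℕ → O δ', (∀ k, v k ∈ R δ δ') ∧ ∃ N : ℕ, ∀ ε > 0, ∃ K, ∀ k ≥ K, ∀ z, 0 < δ' z →
    δ' z ^ N * ‖(v k : Cn n → ℂ) z - (u : Cn n → ℂ) z‖ ≤ ε}

/-- The ball of radius `ε` of `E_N(δ)`. -/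
def stepBall {n : ℕ} (δ : Weight n) (N : ℕ) (ε : ℝ) : Set (O δ) :=
  {u | ∀ z, 0 < δ z → δ z ^ N * ‖(u : Cn n → ℂ) z‖ ≤ ε}

/-- The filter of the zero neighbourhoods of `E_N(δ)`. -/
noncomputable def stepFilter {n : ℕ} (δ : Weight n) (N : ℕ) : Filter (O δ) :=
  ⨅ ε : {ε : ℝ // 0 < ε}, 𝓟 (stepBall δ N ε.1)

theorem mem_stepFilter {n : ℕ} (δ : Weight n) (N : ℕ) (V : Set (O δ)) :
    V ∈ stepFilter δ N ↔ ∃ ε > 0, stepBall δ N ε ⊆ V := by
  haveI : Nonempty {ε : ℝ // 0 < ε} := ⟨⟨1, one_pos⟩⟩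
  have hd : Directed (· ≥ ·) (fun ε : {ε : ℝ // 0 < ε} => 𝓟 (stepBall δ N ε.1)) := by
    intro a b
    refine ⟨⟨min a.1 b.1, lt_min a.2 b.2⟩, ?_, ?_⟩
    · exact principal_mono.2 (fun u hu z hz => (hu z hz).trans (min_le_left _ _))
    · exact principal_mono.2 (fun u hu z hz => (hu z hz).trans (min_le_right _ _))
  rw [stepFilter, mem_iInf_of_directed hd]
  simp only [mem_principal, Subtype.exists, exists_prop]

theorem admissible_iff {n : ℕ} (δ : Weight n) (t : TopologicalSpace (O δ)) :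
    (∀ (N : ℕ), ∀ V ∈ @nhds (O δ) t 0, ∃ ε > 0, ∀ u : O δ,
    (∀ z, 0 < δ z → δ z ^ N * ‖(u : Cn n → ℂ) z‖ ≤ ε) → u ∈ V) ↔
    ∀ N, stepFilter δ N ≤ @nhds (O δ) t 0 := by
  constructor
  · intro h N V hV
    obtain ⟨ε, hε, h1⟩ := h N V hV
    exact (mem_stepFilter δ N V).2 ⟨ε, hε, h1⟩
  · intro h N V hV
    obtain ⟨ε, hε, h1⟩ := (mem_stepFilter δ N V).1 (h N hV)
    exact ⟨ε, hε, h1⟩

/-- `indTop δ` is itself admissible. -/
theorem admissible_indTop {n : ℕ} (δ : Weight n) : Admissible δ (indTop δ) := by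
  refine ⟨?_, ?_, ?_, ?_⟩
  · exact topologicalAddGroup_sInf (fun t ht => ht.1)
  · exact continuousSMul_sInf (fun t ht => ht.2.1)
  · exact LocallyConvexSpace.sInf (fun t ht => ht.2.2.1)
  · rw [admissible_iff]
    intro N
    rw [indTop, nhds_sInf]
    refine le_iInf₂ (fun t ht => ?_)
    exact (admissible_iff δ t).1 ht.2.2.2 N

/-- If `u_k - u → 0` in `E_N(δ)` then `u` is in the closure of the `u_k`, for `indTop`. -/
theorem mem_closure_of_step {n : ℕ} (δ : Weight n) (A : Set (O δ)) (u : O δ) (N : ℕ)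
    (h : ∀ ε > 0, ∃ v ∈ A, ∀ z, 0 < δ z → δ z ^ N * ‖(v : Cn n → ℂ) z - (u : Cn n → ℂ) z‖ ≤ ε) :
    u ∈ @closure (O δ) (indTop δ) A := by
  letI := indTop δ
  obtain ⟨h1, -, -, h4⟩ := admissible_indTop δ
  haveI := h1
  rw [mem_closure_iff_nhds]
  intro V hV
  have hV' : (fun x => u + x) ⁻¹' V ∈ 𝓝 (0 : O δ) := by
    have hc : ContinuousAt (fun x : O δ => u + x) 0 := (continuous_const.add continuous_id).continuousAt
    exact hc.preimage_mem_nhds (by simpa using hV)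
  obtain ⟨ε, hε, h5⟩ := h4 N _ hV'
  obtain ⟨v, hv, hv2⟩ := h ε hε
  refine ⟨v, ?_, hv⟩
  have h6 := h5 (v - u) (fun z hz => by simpa using hv2 z hz)
  simpa using h6

end Pool.Agent.X170.Fer
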