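import Pool.Agent.HopfPinch.AnS1
import Pool.Agent.X170.Fer.Defs

/-!
Taylor coefficients in one variable of an entire function of several variables.
-/

set_option autoImplicit false

open MeasureTheory Metric Set Filter Topology Complex

namespace Pool.Agent.X170.Fer

/-- The embedding of `ℂ²` in `ℂ^(k+2)`. -/
noncomputable def emb (k : ℕ) (z ζ : ℂ) : Cn (k + 2) :=
  z • EuclideanSpace.single 0 (1 : ℂ) + ζ • EuclideanSpace.single 1 (1 : ℂ)

theorem emb_zero (k : ℕ) (z ζ : ℂ) : emb k z ζ 0 = z := by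
  simp [emb]

theorem emb_one (k : ℕ) (z ζ : ℂ) : emb k z ζ 1 = ζ := by
  simp [emb]

theorem emb_succ (k : ℕ) (z ζ : ℂ) (j : Fin k) : emb k z ζ j.succ.succ = 0 := by
  have h1 : (j.succ.succ : Fin (k + 2)) ≠ 0 := Fin.succ_ne_zero _
  have h2 : (j.succ.succ : Fin (k + 2)) ≠ 1 := by
    intro h
    have := congrArg Fin.val h
    simp at this
  simp [emb, h1, h2]

/-- The `m`-th Taylor coefficient (times `m!`). -/
noncomputable def G (k m : ℕ) (F : Cn (k + 2) → ℂ) (z : ℂ) : ℂ :=
  iteratedDeriv m (fun ζ => F (emb k z ζ)) 0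

theorem diff_slice {k : ℕ} {F : Cn (k + 2) → ℂ} (hF : Differentiable ℂ F) (z : ℂ) :
    Differentiable ℂ (fun ζ => F (emb k z ζ)) := by
  refine hF.comp ?_
  unfold emb
  fun_prop

theorem diff_slice' {k : ℕ} {F : Cn (k + 2) → ℂ} (hF : Differentiable ℂ F) (ζ : ℂ) :
    Differentiable ℂ (fun z => F (emb k z ζ)) := by
  refine hF.comp ?_
  unfold emb
  fun_prop

theorem G_le {k : ℕ} {F : Cn (k + 2) → ℂ} (hF : Differentiable ℂ F) (m : ℕ) (z : ℂ) {R C : ℝ}
    (hR : 0 < R) (hC : ∀ ζ, ‖ζ‖ = R → ‖F (emb k z ζ)‖ ≤ C) :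
    ‖G k m F z‖ ≤ m.factorial * C / R ^ m :=
  Complex.norm_iteratedDeriv_le_of_forall_mem_sphere_norm_le m hR
    (diff_slice hF z).diffContOnCl (fun ζ hζ => hC ζ (by simpa using hζ))

theorem G_formula {k : ℕ} {F : Cn (k + 2) → ℂ} (hF : Differentiable ℂ F) (m : ℕ) (z : ℂ) :
    G k m F z = (2 * Real.pi * I / m.factorial)⁻¹ * ∫ θ in Ioc (0 : ℝ) (2 * Real.pi),
      deriv (circleMap 0 1) θ * ((1 / (circleMap 0 1 θ) ^ (m + 1)) * F (emb k z (circleMap 0 1 θ))) := by
  have h1 := DiffContOnCl.circleIntegral_one_div_sub_center_pow_smul one_pos m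
    (diff_slice hF z).diffContOnCl (c := 0)
  have h0 : (2 * Real.pi * I / m.factorial : ℂ) ≠ 0 := by simp [Nat.factorial_ne_zero]
  rw [circleIntegral, intervalIntegral.integral_of_le (by positivity)] at h1
  simp only [smul_eq_mul, sub_zero] at h1
  rw [h1, G, ← mul_assoc, inv_mul_cancel₀ h0, one_mul]

theorem differentiable_G {k : ℕ} {F : Cn (k + 2) → ℂ} (hF : Differentiable ℂ F) (m : ℕ) :
    Differentiable ℂ (G k m F) := by
  intro z0
  -- bound of `F` on a compact set
  obtain ⟨B, hB⟩ : ∃ B, ∀ z ∈ ball z0 1, ∀ θ : ℝ, ‖F (emb k z (circleMap 0 1 θ))‖ ≤ B := by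
    have hcomp : IsCompact ((fun p : ℂ × ℂ => F (emb k p.1 p.2)) '' (closedBall z0 1 ×ˢ closedBall 0 1)) := by
      refine ((isCompact_closedBall _ _).prod (isCompact_closedBall _ _)).image ?_
      refine hF.continuous.comp ?_
      unfold emb
      fun_prop
    obtain ⟨B, hB⟩ := hcomp.isBounded.exists_norm_le
    refine ⟨B, fun z hz θ => hB _ ⟨(z, circleMap 0 1 θ), ⟨ball_subset_closedBall hz, ?_⟩, rfl⟩⟩
    exact circleMap_mem_closedBall _ zero_le_one _
  have hkey : DifferentiableOn ℂ (fun z => ∫ θ in Ioc (0 : ℝ) (2 * Real.pi),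
      deriv (circleMap 0 1) θ * ((1 / (circleMap 0 1 θ) ^ (m + 1)) * F (emb k z (circleMap 0 1 θ))))
      (ball z0 1) := by
    refine HP.differentiableOn_integral (X := ℂ) (E := ℂ) _ _ (ball z0 1) isOpen_ball ?_ ?_
      (fun _ => B) ?_ ?_
    · intro z hz
      apply Continuous.aestronglyMeasurable
      have hc1 : Continuous (fun θ => F (emb k z (circleMap 0 1 θ))) :=
        (diff_slice hF z).continuous.comp (continuous_circleMap 0 1)
      have hc2 : Continuous (fun θ => 1 / (circleMap 0 1 θ) ^ (m + 1)) := by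
        refine continuous_const.div ((continuous_circleMap 0 1).pow _) (fun θ => ?_)
        exact pow_ne_zero _ (by
          have : ‖circleMap 0 1 θ‖ = 1 := by simp
          exact norm_pos_iff.1 (by rw [this]; exact one_pos))
      have hc3 : Continuous (fun θ => deriv (circleMap 0 1) θ) := by
        simp only [deriv_circleMap]
        exact (continuous_circleMap 0 1).mul continuous_const
      exact hc3.mul (hc2.mul hc1)
    · intro θ
      exact (((diff_slice' hF (circleMap 0 1 θ)).const_mul _).const_mul _).differentiableOn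
    · exact integrableOn_const measure_Ioc_lt_top.ne enorm_ne_top
    · intro θ z hz
      rw [norm_mul, norm_mul, norm_div, norm_pow]
      have h3 : ‖deriv (circleMap 0 1) θ‖ = 1 := by simp [deriv_circleMap]
      have h4 : ‖circleMap 0 1 θ‖ = 1 := by simp
      rw [h3, h4]
      simpa using hB z hz θ
  have h5 : G k m F = fun z => (2 * Real.pi * I / m.factorial : ℂ)⁻¹ * ∫ θ in Ioc (0 : ℝ) (2 * Real.pi),
      deriv (circleMap 0 1) θ * ((1 / (circleMap 0 1 θ) ^ (m + 1)) * F (emb k z (circleMap 0 1 θ))) :=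
    funext (G_formula hF m)
  rw [h5]
  exact (hkey.differentiableAt (isOpen_ball.mem_nhds (mem_ball_self one_pos))).const_mul _

end Pool.Agent.X170.Fer
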