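import Mathlib

/-!
The gap series `g(z) = ∑ 16^{-j²} z^{2j}`.
-/

set_option autoImplicit false

open Filter Topology Metric

namespace Pool.Agent.X170.Fer

/-- Coefficients. -/
noncomputable def c (j : ℕ) : ℝ := (1/16 : ℝ) ^ (j ^ 2)

/-- `Φ(r) = ∑ 16^{-j²} r^{2j}`. -/
noncomputable def Phi (r : ℝ) : ℝ := ∑' j, c j * r ^ (2 * j)

/-- `g(z) = ∑ 16^{-j²} z^{2j}`. -/
noncomputable def g (z : ℂ) : ℂ := ∑' j, (c j : ℂ) * z ^ (2 * j)

/-- `κ_i`. -/
noncomputable def K (i : ℕ) : ℝ := (16 : ℝ) ^ (i ^ 2)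

theorem c_pos (j : ℕ) : 0 < c j := by unfold c; positivity

theorem K_pos (j : ℕ) : 0 < K j := by unfold K; positivity

theorem one_le_K (j : ℕ) : 1 ≤ K j := by unfold K; exact one_le_pow₀ (by norm_num)

/-- Distance. -/
def dd (i j : ℕ) : ℕ := (i - j) + (j - i)

theorem c_mul_le (i j : ℕ) : c j * ((16 : ℝ) ^ i) ^ (2 * j) ≤ K i * (1/16) ^ (dd i j) := by
  unfold c K dd
  have h1 : 2 * (i * j) + ((i - j) + (j - i)) ≤ i ^ 2 + j ^ 2 := by
    rcases le_total i j with h | h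
    · obtain ⟨d, rfl⟩ := Nat.exists_eq_add_of_le h
      have : i - (i + d) = 0 := by omega
      rw [this, Nat.add_sub_cancel_left]
      have : d ≤ d * d := Nat.le_mul_self d
      nlinarith
    · obtain ⟨d, rfl⟩ := Nat.exists_eq_add_of_le h
      have : j - (j + d) = 0 := by omega
      rw [this, Nat.add_sub_cancel_left]
      have : d ≤ d * d := Nat.le_mul_self d
      nlinarith
  rw [one_div, inv_pow, inv_pow, ← div_eq_mul_inv, inv_mul_eq_div, div_le_div_iff₀ (by positivity) (by positivity)]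
  rw [← pow_mul, ← pow_add, ← pow_add]
  refine pow_le_pow_right₀ (by norm_num) ?_
  have h2 : i * (2 * j) = 2 * (i * j) := by ring
  omega

theorem c_mul_self (i : ℕ) : c i * ((16 : ℝ) ^ i) ^ (2 * i) = K i := by
  unfold c K
  rw [one_div, inv_pow, inv_mul_eq_div, div_eq_iff (by positivity), ← pow_mul, ← pow_add]
  congr 1
  ring

theorem summable_dd {q : ℝ} (h0 : 0 ≤ q) (h1 : q < 1) (i : ℕ) : Summable fun j => q ^ (dd i j) := by
  rw [← summable_nat_add_iff i]
  have : (fun n => q ^ (dd i (n + i))) = fun n => q ^ n := by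
    funext n
    congr 1
    unfold dd
    omega
  rw [this]
  exact summable_geometric_of_lt_one h0 h1

theorem tsum_dd {q : ℝ} (h0 : 0 ≤ q) (h1 : q < 1) (i : ℕ) :
    ∑' j, q ^ (dd i j) ≤ (1 + q) / (1 - q) := by
  rw [← (summable_dd h0 h1 i).sum_add_tsum_nat_add i]
  have h2 : (fun n => q ^ (dd i (n + i))) = fun n => q ^ n := by
    funext n
    congr 1
    unfold dd
    omega
  rw [h2, tsum_geometric_of_lt_one h0 h1]
  have h3 : ∑ j ∈ Finset.range i, q ^ (dd i j) = ∑ j ∈ Finset.range i, q ^ (j + 1) := by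
    rw [← Finset.sum_range_reflect]
    refine Finset.sum_congr rfl (fun j hj => ?_)
    rw [Finset.mem_range] at hj
    congr 1
    unfold dd
    omega
  rw [h3]
  have h4 : ∑ j ∈ Finset.range i, q ^ (j + 1) ≤ q * (1 - q)⁻¹ := by
    have h5 : ∑ j ∈ Finset.range i, q ^ (j + 1) = q * ∑ j ∈ Finset.range i, q ^ j := by
      rw [Finset.mul_sum]
      exact Finset.sum_congr rfl (fun j _ => by ring)
    rw [h5, ← tsum_geometric_of_lt_one h0 h1]
    gcongr
    exact (summable_geometric_of_lt_one h0 h1).sum_le_tsum _ (fun j _ => by positivity)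
  have h6 : (1 + q) / (1 - q) = q * (1 - q)⁻¹ + (1 - q)⁻¹ := by
    rw [div_eq_mul_inv]; ring
  linarith

theorem exists_pow_ge (r : ℝ) : ∃ i : ℕ, r ≤ (16 : ℝ) ^ i := by
  obtain ⟨i, hi⟩ := pow_unbounded_of_one_lt r (by norm_num : (1 : ℝ) < 16)
  exact ⟨i, hi.le⟩

theorem summable_Phi {r : ℝ} (hr : 0 ≤ r) : Summable fun j => c j * r ^ (2 * j) := by
  obtain ⟨i, hi⟩ := exists_pow_ge r
  refine Summable.of_nonneg_of_le (fun j => by have := c_pos j; positivity) (fun j => ?_)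
    ((summable_dd (by norm_num : (0 : ℝ) ≤ 1/16) (by norm_num) i).mul_left (K i))
  refine le_trans ?_ (c_mul_le i j)
  have := c_pos j
  gcongr

theorem summable_g (z : ℂ) : Summable fun j => (c j : ℂ) * z ^ (2 * j) := by
  refine Summable.of_norm ?_
  refine (summable_Phi (norm_nonneg z)).congr (fun j => ?_)
  rw [norm_mul, norm_pow, Complex.norm_real, Real.norm_of_nonneg (c_pos j).le]

theorem sum_le_Phi {r : ℝ} (hr : 0 ≤ r) (s : Finset ℕ) : ∑ j ∈ s, c j * r ^ (2 * j) ≤ Phi r :=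
  (summable_Phi hr).sum_le_tsum _ (fun j _ => by have := c_pos j; positivity)

theorem one_le_Phi {r : ℝ} (hr : 0 ≤ r) : 1 ≤ Phi r := by
  have := sum_le_Phi hr {0}
  simpa [c] using this

theorem Phi_pos {r : ℝ} (hr : 0 ≤ r) : 0 < Phi r := lt_of_lt_of_le one_pos (one_le_Phi hr)

theorem term_le_Phi {r : ℝ} (hr : 0 ≤ r) (j : ℕ) : c j * r ^ (2 * j) ≤ Phi r := by
  have := sum_le_Phi hr {j}
  simpa using this

theorem sq_le_Phi {r : ℝ} (hr : 0 ≤ r) : r ^ 2 / 16 ≤ Phi r := by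
  have := term_le_Phi hr 1
  simp only [c, one_pow, pow_one, mul_one] at this
  linarith

theorem Phi_mono {r s : ℝ} (hr : 0 ≤ r) (hrs : r ≤ s) : Phi r ≤ Phi s := by
  refine Summable.tsum_le_tsum (fun j => ?_) (summable_Phi hr) (summable_Phi (hr.trans hrs))
  have := c_pos j
  gcongr

theorem norm_g_sub_le (z : ℂ) (s : Finset ℕ) :
    ‖g z - ∑ j ∈ s, (c j : ℂ) * z ^ (2 * j)‖ ≤ Phi ‖z‖ - ∑ j ∈ s, c j * ‖z‖ ^ (2 * j) := by
  have h1 := (summable_g z).sum_add_tsum_subtype_compl s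
  have h2 := (summable_Phi (norm_nonneg z)).sum_add_tsum_subtype_compl s
  have h3 : g z - ∑ j ∈ s, (c j : ℂ) * z ^ (2 * j) = ∑' x : {x // x ∉ s}, (c x : ℂ) * z ^ (2 * (x : ℕ)) := by
    unfold g
    rw [← h1]; ring
  have h4 : Phi ‖z‖ - ∑ j ∈ s, c j * ‖z‖ ^ (2 * j) = ∑' x : {x // x ∉ s}, c x * ‖z‖ ^ (2 * (x : ℕ)) := by
    unfold Phi
    rw [← h2]; ring
  rw [h3, h4]
  have h5 : ∀ x : {x // x ∉ s}, ‖(c x : ℂ) * z ^ (2 * (x : ℕ))‖ = c x * ‖z‖ ^ (2 * (x : ℕ)) := by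
    intro x
    rw [norm_mul, norm_pow, Complex.norm_real, Real.norm_of_nonneg (c_pos x).le]
  have h6 : Summable fun x : {x // x ∉ s} => ‖(c x : ℂ) * z ^ (2 * (x : ℕ))‖ := by
    simp only [h5]
    exact (summable_Phi (norm_nonneg z)).subtype _
  refine (norm_tsum_le_tsum_norm h6).trans (le_of_eq ?_)
  exact tsum_congr h5

theorem norm_g_le (z : ℂ) : ‖g z‖ ≤ Phi ‖z‖ := by
  have := norm_g_sub_le z ∅
  simpa using this

theorem differentiable_g : Differentiable ℂ g := by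
  intro z0
  have h1 : DifferentiableOn ℂ g (ball 0 (‖z0‖ + 1)) := by
    refine Complex.differentiableOn_tsum_of_summable_norm (u := fun j => c j * (‖z0‖ + 1) ^ (2 * j))
      (summable_Phi (by positivity)) (fun j => ?_) isOpen_ball (fun j w hw => ?_)
    · exact ((differentiable_const _).mul (differentiable_id.pow _)).differentiableOn
    · rw [norm_mul, norm_pow, Complex.norm_real, Real.norm_of_nonneg (c_pos j).le]
      have := c_pos j
      rw [mem_ball_zero_iff] at hw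
      gcongr
  exact h1.differentiableAt (isOpen_ball.mem_nhds (by simp))

theorem main_term (i : ℕ) {z : ℂ} (hz : ‖z‖ = 16 ^ i) :
    ‖g z - (c i : ℂ) * z ^ (2 * i)‖ ≤ K i / 7 := by
  have h1 := norm_g_sub_le z {i}
  simp only [Finset.sum_singleton] at h1
  refine h1.trans ?_
  rw [hz, c_mul_self]
  have h2 : Phi (16 ^ i) ≤ K i * ((1 + 1/16) / (1 - 1/16)) := by
    calc Phi (16 ^ i) ≤ ∑' j, K i * (1/16) ^ (dd i j) :=
          Summable.tsum_le_tsum (fun j => c_mul_le i j) (summable_Phi (by positivity))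
            ((summable_dd (by norm_num : (0 : ℝ) ≤ 1/16) (by norm_num) i).mul_left (K i))
      _ = K i * ∑' j, (1/16 : ℝ) ^ (dd i j) := tsum_mul_left
      _ ≤ _ := by
          have := K_pos i
          gcongr
          exact tsum_dd (by norm_num) (by norm_num) i
  have := K_pos i
  norm_num at h2
  linarith

theorem sixteen_mul_le {i : ℕ} (hi : 1 ≤ i) : (16 : ℝ) * i ≤ 16 ^ i := by
  have h : ∀ k : ℕ, 16 * (k + 1) ≤ 16 ^ (k + 1) := by
    intro k
    induction k with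
    | zero => norm_num
    | succ k ih => rw [pow_succ]; omega
  obtain ⟨k, rfl⟩ := Nat.exists_eq_add_of_le' hi
  exact_mod_cast h k

theorem one_add_pow_le {i : ℕ} (hi : 1 ≤ i) (j : ℕ) :
    (1 + 1 / (16 : ℝ) ^ i) ^ (2 * j) ≤ 2 * 2 ^ (dd i j) := by
  have h1 : j ≤ i + dd i j := by unfold dd; omega
  have h16 : (16 : ℝ) ≤ 16 ^ i := by
    calc (16 : ℝ) = 16 ^ 1 := by norm_num
      _ ≤ 16 ^ i := pow_le_pow_right₀ (by norm_num) hi
  have hx : (0 : ℝ) ≤ 1 / (16 : ℝ) ^ i := by positivity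
  have h2 : (1 + 1 / (16 : ℝ) ^ i) ^ (2 * j) ≤ (1 + 1 / (16 : ℝ) ^ i) ^ (2 * (i + dd i j)) :=
    pow_le_pow_right₀ (by linarith) (by omega)
  refine h2.trans ?_
  rw [mul_add, pow_add]
  have h3 : (1 + 1 / (16 : ℝ) ^ i) ^ (2 * i) ≤ 2 := by
    have h4 : (1 + 1 / (16 : ℝ) ^ i) ≤ Real.exp (1 / (16 : ℝ) ^ i) := by
      have := Real.add_one_le_exp (1 / (16 : ℝ) ^ i)
      linarith
    calc (1 + 1 / (16 : ℝ) ^ i) ^ (2 * i) ≤ (Real.exp (1 / (16 : ℝ) ^ i)) ^ (2 * i) := by gcongr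
      _ = Real.exp ((2 * i : ℕ) * (1 / (16 : ℝ) ^ i)) := by rw [Real.exp_nat_mul]
      _ ≤ Real.exp (1/8) := by
          apply Real.exp_le_exp.2
          rw [mul_one_div, div_le_div_iff₀ (by positivity) (by norm_num)]
          push_cast
          have := sixteen_mul_le hi
          linarith
      _ ≤ 1 / (1 - 1/8) := Real.exp_bound_div_one_sub_of_interval (by norm_num) (by norm_num)
      _ ≤ 2 := by norm_num
  have h5 : (1 + 1 / (16 : ℝ) ^ i) ^ (2 * dd i j) ≤ 2 ^ (dd i j) := by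
    rw [pow_mul]
    gcongr
    have h6 : 1 / (16 : ℝ) ^ i ≤ 1 / 16 := by
      apply one_div_le_one_div_of_le (by norm_num) h16
    nlinarith
  gcongr

theorem Phi_le (i : ℕ) (hi : 1 ≤ i) {r : ℝ} (hr : 0 ≤ r) (hr2 : r ≤ 16 ^ i + 1) : Phi r ≤ 3 * K i := by
  refine (Phi_mono hr hr2).trans ?_
  have h1 : ∀ j, c j * ((16 : ℝ) ^ i + 1) ^ (2 * j) ≤ 2 * K i * (1/8) ^ (dd i j) := by
    intro j
    have h2 : ((16 : ℝ) ^ i + 1) = 16 ^ i * (1 + 1 / (16 : ℝ) ^ i) := by field_simp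
    rw [h2, mul_pow, ← mul_assoc]
    calc c j * ((16 : ℝ) ^ i) ^ (2 * j) * (1 + 1 / (16 : ℝ) ^ i) ^ (2 * j)
        ≤ (K i * (1/16) ^ (dd i j)) * (2 * 2 ^ (dd i j)) := by
          have := c_pos j
          have := K_pos i
          have := c_mul_le i j
          have := one_add_pow_le hi j
          gcongr
      _ = 2 * K i * (1/8) ^ (dd i j) := by
          have : (1/8 : ℝ) ^ (dd i j) = (1/16) ^ (dd i j) * 2 ^ (dd i j) := by
            rw [← mul_pow]; norm_num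
          rw [this]; ring
  have hs := (summable_dd (by norm_num : (0 : ℝ) ≤ 1/8) (by norm_num) i).mul_left (2 * K i)
  calc Phi (16 ^ i + 1) ≤ ∑' j, 2 * K i * (1/8) ^ (dd i j) :=
        Summable.tsum_le_tsum h1 (summable_Phi (by positivity)) hs
    _ = 2 * K i * ∑' j, (1/8 : ℝ) ^ (dd i j) := tsum_mul_left
    _ ≤ 2 * K i * ((1 + 1/8) / (1 - 1/8)) := by
        have := K_pos i
        gcongr
        exact tsum_dd (by norm_num) (by norm_num) i
    _ ≤ 3 * K i := by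
        have := K_pos i
        norm_num
        linarith

end Pool.Agent.X170.Fer
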