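import Pool.Agent.X170.Fer.Gap

/-!
More on the gap series: partial sums, tails, rotations.
-/

set_option autoImplicit false

open Filter Topology Metric

namespace Pool.Agent.X170.Fer

/-- Partial sums. -/
noncomputable def P (k : ℕ) (z : ℂ) : ℂ := ∑ j ∈ Finset.range k, (c j : ℂ) * z ^ (2 * j)

/-- Tail of `Phi`. -/
noncomputable def T (k : ℕ) (r : ℝ) : ℝ := Phi r - ∑ j ∈ Finset.range k, c j * r ^ (2 * j)

theorem norm_g_sub_P (k : ℕ) (z : ℂ) : ‖g z - P k z‖ ≤ T k ‖z‖ := norm_g_sub_le z _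

theorem T_nonneg (k : ℕ) {r : ℝ} (hr : 0 ≤ r) : 0 ≤ T k r := by
  have := sum_le_Phi hr (Finset.range k)
  unfold T; linarith

theorem T_le_Phi (k : ℕ) {r : ℝ} (hr : 0 ≤ r) : T k r ≤ Phi r := by
  have : 0 ≤ ∑ j ∈ Finset.range k, c j * r ^ (2 * j) :=
    Finset.sum_nonneg (fun j _ => by have := c_pos j; positivity)
  unfold T; linarith

theorem T_eq (k : ℕ) {r : ℝ} (hr : 0 ≤ r) : T k r = ∑' j, c (j + k) * r ^ (2 * (j + k)) := by
  unfold T Phi
  rw [← (summable_Phi hr).sum_add_tsum_nat_add k]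
  ring

theorem T_mono (k : ℕ) {r s : ℝ} (hr : 0 ≤ r) (hrs : r ≤ s) : T k r ≤ T k s := by
  rw [T_eq k hr, T_eq k (hr.trans hrs)]
  have h1 : Summable fun j => c (j + k) * r ^ (2 * (j + k)) :=
    (summable_nat_add_iff (f := fun j => c j * r ^ (2 * j)) k).2 (summable_Phi hr)
  have h2 : Summable fun j => c (j + k) * s ^ (2 * (j + k)) :=
    (summable_nat_add_iff (f := fun j => c j * s ^ (2 * j)) k).2 (summable_Phi (hr.trans hrs))
  refine Summable.tsum_le_tsum (fun j => ?_) h1 h2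
  have := c_pos (j + k)
  gcongr

theorem T_tendsto {r : ℝ} (hr : 0 ≤ r) : Tendsto (fun k => T k r) atTop (𝓝 0) := by
  have h1 := (summable_Phi hr).hasSum.tendsto_sum_nat
  have h2 := (tendsto_const_nhds (x := Phi r) (f := (atTop : Filter ℕ))).sub h1
  simpa [T, Phi] using h2

theorem mul_exp_neg_le {x : ℝ} (hx : 0 < x) : x * Real.exp (-x) ≤ 2 / x := by
  have h1 := Real.quadratic_le_exp_of_nonneg hx.le
  rw [Real.exp_neg, ← div_eq_mul_inv, div_le_div_iff₀ (Real.exp_pos _) hx]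
  nlinarith

theorem tail_small {ε : ℝ} (hε : 0 < ε) : ∃ k0, ∀ k ≥ k0, ∀ r, 0 ≤ r →
    T k r * Real.exp (-Phi r) ≤ ε := by
  obtain ⟨r0, hr0, hr1⟩ : ∃ r0 : ℝ, 0 < r0 ∧ 32 / r0 ^ 2 ≤ ε := by
    refine ⟨max 1 (32 / ε), lt_of_lt_of_le one_pos (le_max_left _ _), ?_⟩
    have h1 : 1 ≤ max 1 (32 / ε) := le_max_left _ _
    have h2 : 32 / ε ≤ max 1 (32 / ε) := le_max_right _ _
    rw [div_le_iff₀ (by positivity)]
    rw [div_le_iff₀ hε] at h2
    nlinarith [mul_nonneg (mul_nonneg hε.le (by linarith : (0:ℝ) ≤ max 1 (32 / ε))) (by linarith : (0:ℝ) ≤ max 1 (32 / ε) - 1)]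
  have h3 := (tendsto_order.1 (T_tendsto hr0.le)).2 ε hε
  obtain ⟨k0, hk0⟩ := eventually_atTop.1 h3
  refine ⟨k0, fun k hk r hr => ?_⟩
  rcases le_total r r0 with h | h
  · have h4 : Real.exp (-Phi r) ≤ 1 := Real.exp_le_one_iff.2 (by linarith [Phi_pos hr])
    calc T k r * Real.exp (-Phi r) ≤ T k r * 1 := by
          have := T_nonneg k hr
          gcongr
      _ ≤ T k r0 := by rw [mul_one]; exact T_mono k hr h
      _ ≤ ε := (hk0 k hk).le
  · calc T k r * Real.exp (-Phi r) ≤ Phi r * Real.exp (-Phi r) := by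
          have := T_le_Phi k hr
          gcongr
      _ ≤ 2 / Phi r := mul_exp_neg_le (Phi_pos hr)
      _ ≤ 32 / r0 ^ 2 := by
          have h5 := sq_le_Phi hr
          have h6 : r0 ^ 2 ≤ r ^ 2 := by gcongr
          rw [div_le_div_iff₀ (Phi_pos hr) (by positivity)]
          nlinarith
      _ ≤ ε := hr1

theorem P_le (k : ℕ) : ∃ A : ℕ, ∀ z, ‖P k z‖ ≤ A * Real.sqrt (Phi ‖z‖) := by
  obtain ⟨A, hA⟩ := exists_nat_ge (∑ j ∈ Finset.range k, c j * (1 + (Real.sqrt (c (2 * k)))⁻¹))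
  refine ⟨A, fun z => ?_⟩
  have hr := norm_nonneg z
  set r := ‖z‖ with hrdef
  have h1 : 1 ≤ Real.sqrt (Phi r) := Real.one_le_sqrt.2 (one_le_Phi hr)
  have hc := c_pos (2 * k)
  have hsc : 0 < Real.sqrt (c (2 * k)) := Real.sqrt_pos.2 hc
  have h2 : r ^ (2 * k) ≤ (Real.sqrt (c (2 * k)))⁻¹ * Real.sqrt (Phi r) := by
    rw [inv_mul_eq_div, le_div_iff₀ hsc]
    apply Real.le_sqrt_of_sq_le
    rw [mul_pow, Real.sq_sqrt hc.le]
    have := term_le_Phi hr (2 * k)
    rw [← pow_mul]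
    have h3 : 2 * (2 * k) = 2 * k * 2 := by ring
    rw [h3] at this
    linarith
  have h4 : ∀ j ∈ Finset.range k, r ^ (2 * j) ≤ (1 + (Real.sqrt (c (2 * k)))⁻¹) * Real.sqrt (Phi r) := by
    intro j hj
    rw [Finset.mem_range] at hj
    have h5 : r ^ (2 * j) ≤ 1 + r ^ (2 * k) := by
      rcases le_total r 1 with h | h
      · have := pow_le_one₀ (n := 2 * j) hr h
        have : 0 ≤ r ^ (2 * k) := by positivity
        linarith
      · have := pow_le_pow_right₀ h (by omega : 2 * j ≤ 2 * k)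
        linarith
    nlinarith
  calc ‖P k z‖ ≤ ∑ j ∈ Finset.range k, c j * r ^ (2 * j) := by
        refine (norm_sum_le _ _).trans (le_of_eq (Finset.sum_congr rfl (fun j _ => ?_)))
        rw [norm_mul, norm_pow, Complex.norm_real, Real.norm_of_nonneg (c_pos j).le]
    _ ≤ ∑ j ∈ Finset.range k, c j * ((1 + (Real.sqrt (c (2 * k)))⁻¹) * Real.sqrt (Phi r)) := by
        refine Finset.sum_le_sum (fun j hj => ?_)
        have := c_pos j
        have := h4 j hj
        gcongr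
    _ = (∑ j ∈ Finset.range k, c j * (1 + (Real.sqrt (c (2 * k)))⁻¹)) * Real.sqrt (Phi r) := by
        rw [Finset.sum_mul]
        exact Finset.sum_congr rfl (fun j _ => by ring)
    _ ≤ A * Real.sqrt (Phi r) := by gcongr

theorem differentiable_P (k : ℕ) : Differentiable ℂ (P k) := by
  unfold P
  fun_prop

/-- The rotation by `π/(4i)`. -/
noncomputable def om (i : ℕ) : ℂ := Complex.exp ((Real.pi / (4 * i) : ℝ) * Complex.I)

theorem norm_om (i : ℕ) : ‖om i‖ = 1 := Complex.norm_exp_ofReal_mul_I _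

theorem om_pow {i : ℕ} (hi : 1 ≤ i) : om i ^ (2 * i) = Complex.I := by
  unfold om
  rw [← Complex.exp_nat_mul]
  have hi0 : (i : ℂ) ≠ 0 := by exact_mod_cast (by omega : i ≠ 0)
  have h1 : ((2 * i : ℕ) : ℂ) * ((Real.pi / (4 * i) : ℝ) * Complex.I) = (Real.pi / 2 : ℂ) * Complex.I := by
    push_cast
    field_simp
    norm_num
  rw [h1, Complex.exp_mul_I, Complex.cos_pi_div_two, Complex.sin_pi_div_two]
  simp

theorem rot_sum {i : ℕ} (hi : 1 ≤ i) {z : ℂ} (hz : ‖z‖ = 16 ^ i) :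
    3 / 7 * K i ≤ ∑ s ∈ Finset.range 4, max 0 (g (om i ^ s * z)).re := by
  set v : ℂ := (c i : ℂ) * z ^ (2 * i) with hv
  have hvn : ‖v‖ = K i := by
    rw [hv, norm_mul, norm_pow, Complex.norm_real, Real.norm_of_nonneg (c_pos i).le, hz, c_mul_self]
  have h1 : ∀ s : ℕ, (Complex.I ^ s * v).re - K i / 7 ≤ (g (om i ^ s * z)).re := by
    intro s
    have h2 : ‖om i ^ s * z‖ = 16 ^ i := by rw [norm_mul, norm_pow, norm_om, one_pow, one_mul, hz]
    have h3 := main_term i h2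
    have h4 : (c i : ℂ) * (om i ^ s * z) ^ (2 * i) = Complex.I ^ s * v := by
      rw [mul_pow, ← pow_mul, mul_comm s, pow_mul, om_pow hi, hv]; ring
    rw [h4] at h3
    have h5 := (Complex.abs_re_le_norm _).trans h3
    rw [Complex.sub_re, abs_le] at h5
    linarith [h5.1]
  have hK := K_pos i
  have h6 := Complex.norm_le_abs_re_add_abs_im v
  rw [hvn] at h6
  have e0 : (Complex.I ^ 0 * v).re = v.re := by simp
  have e1 : (Complex.I ^ 1 * v).re = -v.im := by simp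
  have e2 : (Complex.I ^ 2 * v).re = -v.re := by simp
  have e3 : (Complex.I ^ 3 * v).re = v.im := by
    have : Complex.I ^ 3 = -Complex.I := by rw [pow_succ, Complex.I_sq]; ring
    rw [this]; simp
  have a0 := h1 0
  have a1 := h1 1
  have a2 := h1 2
  have a3 := h1 3
  rw [e0] at a0
  rw [e1] at a1
  rw [e2] at a2
  rw [e3] at a3
  simp only [Finset.sum_range_succ, Finset.sum_range_zero, zero_add]
  have b0 := le_max_left 0 (g (om i ^ 0 * z)).re
  have b1 := le_max_left 0 (g (om i ^ 1 * z)).re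
  have b2 := le_max_left 0 (g (om i ^ 2 * z)).re
  have b3 := le_max_left 0 (g (om i ^ 3 * z)).re
  have d0 := le_max_right 0 (g (om i ^ 0 * z)).re
  have d1 := le_max_right 0 (g (om i ^ 1 * z)).re
  have d2 := le_max_right 0 (g (om i ^ 2 * z)).re
  have d3 := le_max_right 0 (g (om i ^ 3 * z)).re
  rcases abs_cases v.re with ⟨hx, _⟩ | ⟨hx, _⟩ <;> rcases abs_cases v.im with ⟨hy, _⟩ | ⟨hy, _⟩ <;>
    rw [hx, hy] at h6 <;> linarith

theorem K_ge (i : ℕ) : (i : ℝ) ≤ K i := by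
  unfold K
  have h1 : i < 16 ^ (i ^ 2) :=
    lt_of_le_of_lt (Nat.le_self_pow (by norm_num) i) (Nat.lt_pow_self (by norm_num))
  exact_mod_cast h1.le

theorem K_tendsto : Tendsto K atTop atTop :=
  tendsto_atTop_mono K_ge tendsto_natCast_atTop_atTop

/-- `g` varies by at most `1` on small discs. -/
theorem g_close {i : ℕ} (hi : 1 ≤ i) {z z' : ℂ} (hz : ‖z‖ = 16 ^ i) (hz' : ‖z' - z‖ ≤ 1 / (7 * K i)) :
    ‖g z' - g z‖ ≤ 1 := by
  have hK := K_pos i
  have hK1 := one_le_K i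
  have hmaps : Set.MapsTo g (ball z 1) (ball (g z) (7 * K i)) := by
    intro x hx
    rw [mem_ball, dist_eq_norm] at hx ⊢
    have h1 : ‖x‖ ≤ 16 ^ i + 1 := by
      have := norm_sub_norm_le x z
      linarith
    have h2 := (norm_g_le x).trans (Phi_le i hi (norm_nonneg _) h1)
    have h3 := (norm_g_le z).trans (Phi_le i hi (norm_nonneg _) (by rw [hz]; linarith))
    have h4 := norm_sub_le (g x) (g z)
    linarith
  have hz1 : z' ∈ ball z 1 := by
    rw [mem_ball, dist_eq_norm]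
    refine lt_of_le_of_lt hz' ?_
    rw [div_lt_one (by positivity)]
    linarith
  have h5 := Complex.dist_le_div_mul_dist_of_mapsTo_ball (differentiable_g.differentiableOn)
    (hmaps.mono_right ball_subset_closedBall) hz1
  rw [dist_eq_norm, dist_eq_norm, div_one] at h5
  refine h5.trans ?_
  calc 7 * K i * ‖z' - z‖ ≤ 7 * K i * (1 / (7 * K i)) := by gcongr
    _ = 1 := by field_simp

end Pool.Agent.X170.Fer
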