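import Pool.Agent.X170.Fer.Wt

/-!
The key lemma: a function of `𝒪(δ)` in the ball of `E_M(δ')` has vanishing high Taylor coefficients
at the origin.
-/

set_option autoImplicit false

open Metric Set Filter Topology

namespace Pool.Agent.X170.Fer

theorem low1 (k : ℕ) {i : ℕ} (hi : 1 ≤ i) {z ζ : ℂ} (hz : ‖z‖ = 16 ^ i) (hζ : ‖ζ‖ = 1) :
    Real.exp (-(2 + k + 6 * K i)) ≤ reg (h1 k) (emb k z ζ) := by
  have hK := K_pos i
  refine le_reg_of_ball (fun w => (h1_pos k w).le) (ρ := 1) ?_ (fun w' hw' => ?_)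
  · apply Real.exp_le_one_iff.2
    have : (0 : ℝ) ≤ k := by positivity
    linarith
  · apply Real.exp_le_exp.2
    have f1 := coord_le' (emb k z ζ) w' 1
    have f2 := tau_le (emb k z ζ) w'
    rw [tau_emb] at f2
    rw [emb_one] at f1
    have f3 : Phi ‖w' 0‖ ≤ 3 * K i := by
      refine Phi_le i hi (norm_nonneg _) ?_
      have := coord_le' (emb k z ζ) w' 0
      rw [emb_zero] at this
      linarith
    have f4 : (k : ℝ) * dist (emb k z ζ) w' ≤ k * 1 := by gcongr
    linarith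

theorem low0 (k : ℕ) {i : ℕ} (hi : 1 ≤ i) {z ζ : ℂ} (hz : ‖z‖ = 16 ^ i) (hg : 0 ≤ (g z).re)
    (hζ : ‖ζ‖ = Real.exp (g z).re) :
    Real.exp (-(Real.sqrt (3 * K i) + k + 3)) / (7 * K i) ≤ reg (h0 k) (emb k z ζ) := by
  have hK := K_pos i
  have hK1 := one_le_K i
  have hk0 : (0 : ℝ) ≤ k := by positivity
  have hexp : Real.exp (-(Real.sqrt (3 * K i) + k + 3)) ≤ 1 :=
    Real.exp_le_one_iff.2 (by have := Real.sqrt_nonneg (3 * K i); linarith)
  refine le_reg_of_ball (fun w => (h0_pos k w).le) (ρ := 1 / (7 * K i)) ?_ (fun w' hw' => ?_)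
  · gcongr
  · have hρ : 1 / (7 * K i) ≤ 1 := by
      rw [div_le_one (by positivity)]; linarith
    have f0 := coord_le (emb k z ζ) w' 0
    have f1 := coord_le' (emb k z ζ) w' 1
    have f2 := tau_le (emb k z ζ) w'
    rw [tau_emb] at f2
    rw [emb_one] at f1
    rw [emb_zero] at f0
    have f3 : Phi ‖w' 0‖ ≤ 3 * K i := by
      refine Phi_le i hi (norm_nonneg _) ?_
      have := coord_le' (emb k z ζ) w' 0
      rw [emb_zero] at this
      linarith
    have f4 : (k : ℝ) * dist (emb k z ζ) w' ≤ k * 1 := by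
      gcongr
      linarith
    have f5 : ‖g (w' 0) - g z‖ ≤ 1 := g_close hi hz (by linarith)
    have f6 : (g z).re - 1 ≤ (g (w' 0)).re := by
      have := (Complex.abs_re_le_norm _).trans f5
      rw [Complex.sub_re, abs_le] at this
      linarith [this.1]
    have f7 : 1 + ‖w' 1‖ * Real.exp (-(g (w' 0)).re) ≤ Real.exp 3 := by
      have g1 : Real.exp (-(g (w' 0)).re) ≤ Real.exp (1 - (g z).re) := Real.exp_le_exp.2 (by linarith)
      have g2 : ‖w' 1‖ ≤ 2 * Real.exp (g z).re := by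
        have : 1 ≤ Real.exp (g z).re := Real.one_le_exp hg
        rw [hζ] at f1
        linarith
      have g3 : ‖w' 1‖ * Real.exp (-(g (w' 0)).re) ≤ 2 * Real.exp 1 := by
        calc ‖w' 1‖ * Real.exp (-(g (w' 0)).re) ≤ (2 * Real.exp (g z).re) * Real.exp (1 - (g z).re) := by
              gcongr
          _ = 2 * Real.exp 1 := by rw [mul_assoc, ← Real.exp_add]; ring_nf
      have g4 : (2 : ℝ) ≤ Real.exp 1 := by have := Real.add_one_le_exp (1 : ℝ); linarith
      have g5 : Real.exp 3 = Real.exp 1 * Real.exp 1 * Real.exp 1 := by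
        rw [← Real.exp_add, ← Real.exp_add]; norm_num
      rw [g5]
      nlinarith [mul_nonneg (by linarith : (0:ℝ) ≤ Real.exp 1 - 2) (by linarith : (0:ℝ) ≤ Real.exp 1),
        mul_nonneg (mul_nonneg (by linarith : (0:ℝ) ≤ Real.exp 1 - 2) (by linarith : (0:ℝ) ≤ Real.exp 1)) (by linarith : (0:ℝ) ≤ Real.exp 1)]
    unfold h0
    calc Real.exp (-(Real.sqrt (3 * K i) + k + 3)) / (7 * K i)
        ≤ Real.exp (-(Real.sqrt (3 * K i) + k + 3)) := div_le_self (Real.exp_pos _).le (by linarith)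
      _ = Real.exp (-Real.sqrt (3 * K i) - k) / Real.exp 3 := by
          rw [← Real.exp_sub]; ring_nf
      _ ≤ Real.exp (-Real.sqrt (Phi ‖w' 0‖) - tau w') / (1 + ‖w' 1‖ * Real.exp (-(g (w' 0)).re)) := by
          have h5 : Real.exp (-Real.sqrt (3 * K i) - k) ≤ Real.exp (-Real.sqrt (Phi ‖w' 0‖) - tau w') := by
            apply Real.exp_le_exp.2
            have := Real.sqrt_le_sqrt f3
            linarith
          have := den_pos w'
          gcongr

/-- The pointwise bound on the circle of radius `16^i`. -/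
theorem G_bound (k : ℕ) {F : Cn (k + 2) → ℂ} (hF : Differentiable ℂ F) {N M : ℕ} {C0 C1 : ℝ}
    (hC0 : 0 ≤ C0) (hC1 : 0 ≤ C1)
    (hd : ∀ w, reg (h0 k) w ^ N * ‖F w‖ ≤ C0) (hd' : ∀ w, reg (h1 k) w ^ M * ‖F w‖ ≤ C1)
    (m : ℕ) {i : ℕ} (hi : 1 ≤ i) {z : ℂ} (hz : ‖z‖ = 16 ^ i) :
    ‖G k m F z‖ ≤ m.factorial * (C0 + C1) * (7 * K i) ^ N *
      Real.exp (N * (Real.sqrt (3 * K i) + k + 3) + M * (2 + k + 6 * K i)) *
      Real.exp (-m * max 0 (g z).re) := by
  have hK := K_pos i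
  have hK1 := one_le_K i
  have hk0 : (0 : ℝ) ≤ k := by positivity
  have hfac : (0 : ℝ) < m.factorial := by positivity
  have hs := Real.sqrt_nonneg (3 * K i)
  have h7 : 1 ≤ (7 * K i) ^ N := one_le_pow₀ (by linarith)
  rcases le_total (g z).re 0 with hg | hg
  · -- use `δ'`
    rw [max_eq_left hg, mul_zero, Real.exp_zero, mul_one]
    have e1 : ∀ ζ : ℂ, ‖ζ‖ = 1 → ‖F (emb k z ζ)‖ ≤ C1 * Real.exp (M * (2 + k + 6 * K i)) := by
      intro ζ hζ
      have e2 := low1 k hi hz hζ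
      have e3 := hd' (emb k z ζ)
      have e4 : Real.exp (-(2 + k + 6 * K i)) ^ M * ‖F (emb k z ζ)‖ ≤ C1 := by
        refine le_trans ?_ e3
        gcongr
      have e5 : Real.exp (M * (2 + k + 6 * K i)) = (Real.exp (-(2 + k + 6 * K i)) ^ M)⁻¹ := by
        rw [← Real.exp_nat_mul, ← Real.exp_neg]; ring_nf
      rw [e5, ← div_eq_mul_inv, le_div_iff₀ (by positivity)]
      linarith
    have e6 := G_le hF m z one_pos e1
    rw [one_pow, div_one] at e6
    refine e6.trans ?_
    have e7 : Real.exp (M * (2 + k + 6 * K i)) ≤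
        Real.exp (N * (Real.sqrt (3 * K i) + k + 3) + M * (2 + k + 6 * K i)) := by
      apply Real.exp_le_exp.2
      have : 0 ≤ (N : ℝ) * (Real.sqrt (3 * K i) + k + 3) := by positivity
      linarith
    calc m.factorial * (C1 * Real.exp (M * (2 + k + 6 * K i)))
        = m.factorial * C1 * 1 * Real.exp (M * (2 + k + 6 * K i)) := by ring
      _ ≤ _ := by
          have f1 : C1 ≤ C0 + C1 := by linarith
          gcongr
  · rw [max_eq_right hg]
    set c0 := Real.exp (-(Real.sqrt (3 * K i) + k + 3)) / (7 * K i) with hc0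
    have hc0pos : 0 < c0 := by positivity
    have e1 : ∀ ζ : ℂ, ‖ζ‖ = Real.exp (g z).re → ‖F (emb k z ζ)‖ ≤
        C0 * ((7 * K i) ^ N * Real.exp (N * (Real.sqrt (3 * K i) + k + 3))) := by
      intro ζ hζ
      have e2 := low0 k hi hz hg hζ
      have e3 := hd (emb k z ζ)
      have e4 : c0 ^ N * ‖F (emb k z ζ)‖ ≤ C0 := by
        refine le_trans ?_ e3
        gcongr
      have e5 : (7 * K i) ^ N * Real.exp (N * (Real.sqrt (3 * K i) + k + 3)) = (c0 ^ N)⁻¹ := by
        rw [hc0, div_pow, inv_div, ← Real.exp_nat_mul, div_eq_mul_inv, ← Real.exp_neg]; ring_nf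
      rw [e5, ← div_eq_mul_inv, le_div_iff₀ (by positivity)]
      linarith
    have e6 := G_le hF m z (Real.exp_pos _) e1
    refine e6.trans ?_
    have e7 : (Real.exp (g z).re ^ m)⁻¹ = Real.exp (-m * (g z).re) := by
      rw [← Real.exp_nat_mul, ← Real.exp_neg]; ring_nf
    rw [div_eq_mul_inv, e7]
    have e8 : m.factorial * (C0 * ((7 * K i) ^ N * Real.exp (N * (Real.sqrt (3 * K i) + k + 3)))) ≤
        m.factorial * (C0 + C1) * (7 * K i) ^ N *
      Real.exp (N * (Real.sqrt (3 * K i) + k + 3) + M * (2 + k + 6 * K i)) := by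
      rw [mul_assoc, mul_assoc]
      have f1 : C0 ≤ C0 + C1 := by linarith
      have f2 : Real.exp (N * (Real.sqrt (3 * K i) + k + 3)) ≤
          Real.exp (N * (Real.sqrt (3 * K i) + k + 3) + M * (2 + k + 6 * K i)) := by
        apply Real.exp_le_exp.2
        have : 0 ≤ (M : ℝ) * (2 + k + 6 * K i) := by positivity
        linarith
      gcongr
    gcongr

/-- The bound of the fourfold product tends to `0`. -/
theorem bound_tendsto (D : ℝ) (k N M m : ℕ) (hm : 100 * (M + 1) ≤ m) :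
    Tendsto (fun i : ℕ => (D * (7 * K i) ^ N *
      Real.exp (N * (Real.sqrt (3 * K i) + k + 3) + M * (2 + k + 6 * K i))) ^ 4 *
      Real.exp (-m * (3 / 7 * K i))) atTop (𝓝 0) := by
  -- upper bound by a simpler function
  set E : ℝ := |D| ^ 4 * 7 ^ (4 * N) * Real.exp (4 * (N * (k + 3)) + 4 * (M * (2 + k)) + 24 * N ^ 2) with hE
  have h1 : Tendsto (fun i : ℕ => E * (2 ^ (4 * N) * ((K i / 2) ^ (4 * N) * Real.exp (-(K i / 2))))) atTop (𝓝 0) := by
    have h2 : Tendsto (fun i : ℕ => K i / 2) atTop atTop := K_tendsto.atTop_div_const (by norm_num)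
    have h3 := (Real.tendsto_pow_mul_exp_neg_atTop_nhds_zero (4 * N)).comp h2
    have h4 := (h3.const_mul (2 ^ (4 * N) : ℝ)).const_mul E
    simpa using h4
  refine squeeze_zero_norm (fun i => ?_) h1
  have hK := K_pos i
  have hK1 := one_le_K i
  have hs := Real.sqrt_nonneg (3 * K i)
  have hs2 : Real.sqrt (3 * K i) ^ 2 = 3 * K i := Real.sq_sqrt (by positivity)
  set s := Real.sqrt (3 * K i) with hsdef
  rw [norm_mul, norm_pow, norm_mul, norm_mul, Real.norm_eq_abs D, Real.norm_of_nonneg (Real.exp_pos _).le,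
    Real.norm_of_nonneg (Real.exp_pos _).le, Real.norm_of_nonneg (by positivity : 0 ≤ (7 * K i) ^ N)]
  have e1 : (|D| * (7 * K i) ^ N * Real.exp (N * (s + k + 3) + M * (2 + k + 6 * K i))) ^ 4 *
      Real.exp (-m * (3 / 7 * K i)) = |D| ^ 4 * 7 ^ (4 * N) * K i ^ (4 * N) *
      Real.exp (4 * (N * (s + k + 3) + M * (2 + k + 6 * K i)) + -m * (3 / 7 * K i)) := by
    rw [mul_pow, mul_pow, ← Real.exp_nat_mul, Real.exp_add, ← pow_mul, mul_pow, mul_comm N 4]
    push_cast
    ring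
  rw [e1]
  have e2 : E * (2 ^ (4 * N) * ((K i / 2) ^ (4 * N) * Real.exp (-(K i / 2)))) =
      |D| ^ 4 * 7 ^ (4 * N) * K i ^ (4 * N) *
      Real.exp (4 * (N * (k + 3)) + 4 * (M * (2 + k)) + 24 * N ^ 2 + -(K i / 2)) := by
    rw [hE, Real.exp_add (4 * (N * (k + 3)) + 4 * (M * (2 + k)) + 24 * N ^ 2 : ℝ) (-(K i / 2)), div_pow]
    generalize Real.exp (4 * (N * (k + 3)) + 4 * (M * (2 + k)) + 24 * N ^ 2 : ℝ) = X
    field_simp
  rw [e2]
  have hmr : (100 : ℝ) * (M + 1) ≤ m := by exact_mod_cast hm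
  have hM0 : (0 : ℝ) ≤ M := by positivity
  have hN0 : (0 : ℝ) ≤ N := by positivity
  have e3 : 4 * (N * (s + k + 3) + M * (2 + k + 6 * K i)) + -m * (3 / 7 * K i) ≤
      4 * (N * (k + 3)) + 4 * (M * (2 + k)) + 24 * N ^ 2 + -(K i / 2) := by
    -- `4 N s ≤ 24 N² + s²/6 = 24 N² + K/2`
    have f1 : 4 * N * s ≤ 24 * N ^ 2 + K i / 2 := by nlinarith [sq_nonneg (12 * (N : ℝ) - s)]
    have f2 : 24 * M * K i + K i ≤ m * (3 / 7 * K i) := by
      have : (24 * (M : ℝ) + 1) ≤ 3 / 7 * m := by linarith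
      nlinarith
    linarith
  have := Real.exp_le_exp.2 e3
  gcongr

/-- **Key lemma.** -/
theorem G_zero (k : ℕ) {F : Cn (k + 2) → ℂ} (hF : Differentiable ℂ F) {N M : ℕ} {C0 C1 : ℝ}
    (hd : ∀ w, reg (h0 k) w ^ N * ‖F w‖ ≤ C0) (hd' : ∀ w, reg (h1 k) w ^ M * ‖F w‖ ≤ C1)
    (m : ℕ) (hm : 100 * (M + 1) ≤ m) : G k m F 0 = 0 := by
  have hC0 : 0 ≤ C0 := le_trans (mul_nonneg (pow_nonneg (reg_nonneg (fun w => (h0_pos k w).le) _) _) (norm_nonneg _)) (hd 0)
  have hC1 : 0 ≤ C1 := le_trans (mul_nonneg (pow_nonneg (reg_nonneg (fun w => (h1_pos k w).le) _) _) (norm_nonneg _)) (hd' 0)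
  have hGd := differentiable_G hF m
  have hb := bound_tendsto (m.factorial * (C0 + C1)) k N M m hm
  have hfin : ‖G k m F 0‖ ^ 4 ≤ 0 := by
    refine ge_of_tendsto hb ?_
    filter_upwards [eventually_ge_atTop 1] with i hi
    -- the fourfold product
    have hQd : Differentiable ℂ (fun z => ∏ s ∈ Finset.range 4, G k m F (om i ^ s * z)) := by
      have e1 : ∀ s : ℕ, Differentiable ℂ (fun z => G k m F (om i ^ s * z)) := fun s =>
        hGd.comp (differentiable_id.const_mul _)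
      simp only [Finset.prod_range_succ, Finset.prod_range_zero, one_mul]
      exact (((e1 0).mul (e1 1)).mul (e1 2)).mul (e1 3)
    set B := m.factorial * (C0 + C1) * (7 * K i) ^ N *
      Real.exp (N * (Real.sqrt (3 * K i) + k + 3) + M * (2 + k + 6 * K i)) with hB
    have hB0 : 0 ≤ B := by
      have := K_pos i
      positivity
    have hmax : ∀ z ∈ frontier (ball (0 : ℂ) (16 ^ i)), ‖∏ s ∈ Finset.range 4, G k m F (om i ^ s * z)‖ ≤
        B ^ 4 * Real.exp (-m * (3 / 7 * K i)) := by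
      intro z hz
      rw [frontier_ball _ (by positivity), mem_sphere_zero_iff_norm] at hz
      rw [norm_prod]
      calc ∏ s ∈ Finset.range 4, ‖G k m F (om i ^ s * z)‖
          ≤ ∏ s ∈ Finset.range 4, (B * Real.exp (-m * max 0 (g (om i ^ s * z)).re)) := by
            refine Finset.prod_le_prod (fun _ _ => norm_nonneg _) (fun s _ => ?_)
            refine G_bound k hF hC0 hC1 hd hd' m hi ?_
            rw [norm_mul, norm_pow, norm_om, one_pow, one_mul, hz]
        _ = B ^ 4 * Real.exp (-m * ∑ s ∈ Finset.range 4, max 0 (g (om i ^ s * z)).re) := by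
            rw [Finset.prod_mul_distrib, Finset.prod_const, Finset.card_range, ← Real.exp_sum,
              Finset.mul_sum]
        _ ≤ _ := by
            have e2 := rot_sum hi hz
            have e3 : -(m : ℝ) * ∑ s ∈ Finset.range 4, max 0 (g (om i ^ s * z)).re ≤ -m * (3 / 7 * K i) := by
              have : (0 : ℝ) ≤ m := by positivity
              nlinarith
            have := Real.exp_le_exp.2 e3
            gcongr
    have h5 := Complex.norm_le_of_forall_mem_frontier_norm_le isBounded_ball hQd.diffContOnCl hmax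
      (subset_closure (mem_ball_self (by positivity : (0:ℝ) < 16 ^ i)))
    simpa [Finset.prod_const] using h5
  have h6 : ‖G k m F 0‖ ^ 4 = 0 := le_antisymm hfin (by positivity)
  have h7 : ‖G k m F 0‖ = 0 := by simpa using h6
  simpa using h7

end Pool.Agent.X170.Fer
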