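import Pool.Agent.X170.Fer.Key

/-!
The counterexample: `e^{w_1}` is in the closure of `R` but is not a bornological limit.
-/

set_option autoImplicit false

open Metric Set Filter Topology

namespace Pool.Agent.X170.Fer

theorem wd_apply (k : ℕ) (w : Cn (k + 2)) : wd k w = reg (h0 k) w := rfl
theorem wd'_apply (k : ℕ) (w : Cn (k + 2)) : wd' k w = reg (h1 k) w := rfl

theorem wd'_pos (k : ℕ) (w : Cn (k + 2)) : 0 < wd' k w := reg_h1_pos k w
theorem wd_pos (k : ℕ) (w : Cn (k + 2)) : 0 < wd k w := reg_h0_pos k w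
theorem wd'_le_wd (k : ℕ) (w : Cn (k + 2)) : wd' k w ≤ wd k w :=
  reg_mono (fun w => (h1_pos k w).le) (h1_le_h0 k) w

theorem wd'_le_h1 (k : ℕ) (w : Cn (k + 2)) : wd' k w ≤ h1 k w := reg_le (fun w => (h1_pos k w).le) w
theorem wd_le_h0 (k : ℕ) (w : Cn (k + 2)) : wd k w ≤ h0 k w := reg_le (fun w => (h0_pos k w).le) w

theorem wd'_le_one (k : ℕ) (w : Cn (k + 2)) : wd' k w ≤ 1 :=
  (wd'_le_h1 k w).trans ((h1_le_h0 k w).trans (h0_le_one k w))

theorem mem_O_of {k : ℕ} (δ : Weight (k + 2)) (hpos : ∀ w, 0 < δ w) {F : Cn (k + 2) → ℂ}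
    (hF : Differentiable ℂ F) {N : ℕ} {C : ℝ} (hb : ∀ w, δ w ^ N * ‖F w‖ ≤ C) : F ∈ O δ :=
  ⟨fun z hz => absurd hz (hpos z).ne', hF.differentiableOn, N, C, fun z _ => hb z⟩

theorem mem_O_wd' {k : ℕ} {F : Cn (k + 2) → ℂ} (hF : F ∈ O (wd k)) : F ∈ O (wd' k) := by
  obtain ⟨-, h1, N, C, h2⟩ := hF
  refine ⟨fun z hz => absurd hz (wd'_pos k z).ne', h1.mono (fun z _ => wd_pos k z), N, C, fun z _ => ?_⟩
  refine le_trans ?_ (h2 z (wd_pos k z))
  have := wd'_le_wd k z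
  have := (wd'_pos k z).le
  gcongr

theorem diff_coord {n : ℕ} (i : Fin n) : Differentiable ℂ (fun w : Cn n => w i) := by
  fun_prop

/-- The elements of `𝒪(δ)` which approximate `w_1^m`. -/
noncomputable def fel (k m j : ℕ) (w : Cn (k + 2)) : ℂ :=
  (w 1) ^ m * Complex.exp (-m * (g (w 0) - P j (w 0)))

theorem diff_fel (k m j : ℕ) : Differentiable ℂ (fel k m j) := by
  unfold fel
  have h1 : Differentiable ℂ (fun w : Cn (k + 2) => g (w 0)) := differentiable_g.comp (diff_coord 0)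
  have h2 : Differentiable ℂ (fun w : Cn (k + 2) => P j (w 0)) := (differentiable_P j).comp (diff_coord 0)
  exact ((diff_coord 1).pow m).mul (((h1.sub h2).const_mul _).cexp)

theorem fel_mem (k m j : ℕ) : fel k m j ∈ O (wd k) := by
  obtain ⟨A, hA⟩ := P_le j
  refine mem_O_of (wd k) (wd_pos k) (diff_fel k m j) (N := m * (A + 1)) (C := 1) (fun w => ?_)
  have e0 : ‖fel k m j w‖ ≤ (1 + ‖w 1‖ * Real.exp (-(g (w 0)).re)) ^ m *
      Real.exp (m * (A * Real.sqrt (Phi ‖w 0‖))) := by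
    unfold fel
    rw [norm_mul, norm_pow, Complex.norm_exp]
    have f1 : (-(m : ℂ) * (g (w 0) - P j (w 0))).re = m * (-(g (w 0)).re) + m * (P j (w 0)).re := by
      have : (-(m : ℂ) * (g (w 0) - P j (w 0))) = ((-m : ℝ) : ℂ) * (g (w 0) - P j (w 0)) := by push_cast; ring
      rw [this, Complex.re_ofReal_mul, Complex.sub_re]; ring
    rw [f1, Real.exp_add, ← mul_assoc, Real.exp_nat_mul, ← mul_pow]
    have f2 : (P j (w 0)).re ≤ A * Real.sqrt (Phi ‖w 0‖) := (Complex.re_le_norm _).trans (hA _)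
    have f3 : (m : ℝ) * (P j (w 0)).re ≤ m * (A * Real.sqrt (Phi ‖w 0‖)) := by gcongr
    have := Real.exp_le_exp.2 f3
    gcongr
    linarith
  have hden := den_pos w
  set X := 1 + ‖w 1‖ * Real.exp (-(g (w 0)).re) with hX
  have hX1 : 1 ≤ X := by
    have : 0 ≤ ‖w 1‖ * Real.exp (-(g (w 0)).re) := by positivity
    linarith
  set q := Real.sqrt (Phi ‖w 0‖) with hq
  have hq0 : 0 ≤ q := Real.sqrt_nonneg _
  have ht := tau_nonneg w
  calc wd k w ^ (m * (A + 1)) * ‖fel k m j w‖ ≤ (h0 k w) ^ (m * (A + 1)) * (X ^ m * Real.exp (m * (A * q))) := by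
        have := wd_le_h0 k w
        have := (wd_pos k w).le
        have := (h0_pos k w).le
        gcongr
    _ ≤ ((Real.exp (-q)) / X) ^ (m * (A + 1)) * (X ^ m * Real.exp (m * (A * q))) := by
        have f1 : h0 k w ≤ Real.exp (-q) / X := by
          unfold h0
          gcongr
          linarith
        have := (h0_pos k w).le
        gcongr
    _ = (Real.exp (-((m * (A + 1) : ℕ) : ℝ) * q) * Real.exp (m * (A * q))) * (X ^ m / X ^ (m * (A + 1))) := by
        rw [div_pow, ← Real.exp_nat_mul]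
        ring_nf
    _ ≤ 1 * 1 := by
        have f1 : X ^ m / X ^ (m * (A + 1)) ≤ 1 := by
          rw [div_le_one (by positivity)]
          exact pow_le_pow_right₀ hX1 (Nat.le_mul_of_pos_right _ (by omega))
        have f2 : Real.exp (-((m * (A + 1) : ℕ) : ℝ) * q) * Real.exp (m * (A * q)) ≤ 1 := by
          rw [← Real.exp_add]
          apply Real.exp_le_one_iff.2
          push_cast
          have : 0 ≤ (m : ℝ) * q := by positivity
          nlinarith
        gcongr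
    _ = 1 := one_mul 1

/-- The approximants. -/
noncomputable def Fs (k M j : ℕ) : Cn (k + 2) → ℂ :=
  ∑ m ∈ Finset.range M, (1 / m.factorial : ℂ) • fel k m j

/-- The partial sums of `e^{w_1}`. -/
noncomputable def pol (k M : ℕ) (w : Cn (k + 2)) : ℂ := ∑ m ∈ Finset.range M, (w 1) ^ m / m.factorial

/-- The function `e^{w_1}`. -/
noncomputable def uu (k : ℕ) (w : Cn (k + 2)) : ℂ := Complex.exp (w 1)

theorem Fs_mem (k M j : ℕ) : Fs k M j ∈ O (wd k) :=
  Submodule.sum_mem _ (fun m _ => Submodule.smul_mem _ _ (fel_mem k m j))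

theorem diff_pol (k M : ℕ) : Differentiable ℂ (pol k M) := by
  unfold pol
  fun_prop

theorem diff_uu (k : ℕ) : Differentiable ℂ (uu k) := (diff_coord 1).cexp

theorem norm_exp_sub_one (x : ℂ) : ‖Complex.exp x - 1‖ ≤ ‖x‖ * Real.exp ‖x‖ := by
  have := Complex.norm_exp_sub_sum_le_norm_mul_exp x 1
  simpa using this

theorem h1_pow (k N : ℕ) (w : Cn (k + 2)) : h1 k w ^ N ≤ Real.exp (-(N * ‖w 1‖) - N * (2 * Phi ‖w 0‖)) := by
  unfold h1
  rw [← Real.exp_nat_mul]
  apply Real.exp_le_exp.2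
  have : 0 ≤ (N : ℝ) * tau w := mul_nonneg (by positivity) (tau_nonneg w)
  linarith

theorem Fs_close (k M j : ℕ) (w : Cn (k + 2)) :
    wd' k w ^ (M + 1) * ‖Fs k M j w - pol k M w‖ ≤ M * (M * (T j ‖w 0‖ * Real.exp (-Phi ‖w 0‖))) := by
  have hr := norm_nonneg (w 0)
  have hT := T_nonneg j hr
  have hTP := T_le_Phi j hr
  have hP := Phi_pos hr
  have e1 : Fs k M j w - pol k M w = ∑ m ∈ Finset.range M,
      ((w 1) ^ m / m.factorial) * (Complex.exp (-m * (g (w 0) - P j (w 0))) - 1) := by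
    unfold Fs pol fel
    rw [Finset.sum_apply, ← Finset.sum_sub_distrib]
    refine Finset.sum_congr rfl (fun m _ => ?_)
    simp only [Pi.smul_apply, smul_eq_mul]
    ring
  rw [e1]
  have e2 : wd' k w ^ (M + 1) ≤ Real.exp (-(((M + 1 : ℕ) : ℝ) * ‖w 1‖) - ((M + 1 : ℕ) : ℝ) * (2 * Phi ‖w 0‖)) := by
    refine le_trans ?_ (h1_pow k (M + 1) w)
    have := wd'_le_h1 k w
    have := (wd'_pos k w).le
    gcongr
  have e3 : ∀ m ∈ Finset.range M, wd' k w ^ (M + 1) *
      ‖((w 1) ^ m / m.factorial) * (Complex.exp (-m * (g (w 0) - P j (w 0))) - 1)‖ ≤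
      M * (T j ‖w 0‖ * Real.exp (-Phi ‖w 0‖)) := by
    intro m hm
    rw [Finset.mem_range] at hm
    have hmM : (m : ℝ) ≤ M := by exact_mod_cast hm.le
    rw [norm_mul, norm_div, norm_pow]
    have f1 : ‖w 1‖ ^ m / ‖((m.factorial : ℕ) : ℂ)‖ ≤ Real.exp ‖w 1‖ := by
      rw [Complex.norm_natCast]
      exact Real.pow_div_factorial_le_exp _ (norm_nonneg _) m
    have f2 : ‖Complex.exp (-m * (g (w 0) - P j (w 0))) - 1‖ ≤ M * T j ‖w 0‖ * Real.exp (M * Phi ‖w 0‖) := by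
      refine (norm_exp_sub_one _).trans ?_
      have g1 : ‖-(m : ℂ) * (g (w 0) - P j (w 0))‖ ≤ m * T j ‖w 0‖ := by
        rw [norm_mul, norm_neg, Complex.norm_natCast]
        have := norm_g_sub_P j (w 0)
        gcongr
      have g2 : ‖-(m : ℂ) * (g (w 0) - P j (w 0))‖ ≤ M * Phi ‖w 0‖ := by
        refine g1.trans ?_
        gcongr
      have g3 : ‖-(m : ℂ) * (g (w 0) - P j (w 0))‖ ≤ M * T j ‖w 0‖ := by
        refine g1.trans ?_
        gcongr
      have := Real.exp_le_exp.2 g2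
      gcongr
    calc wd' k w ^ (M + 1) * (‖w 1‖ ^ m / ‖((m.factorial : ℕ) : ℂ)‖ * ‖Complex.exp (-m * (g (w 0) - P j (w 0))) - 1‖)
        ≤ Real.exp (-(((M + 1 : ℕ) : ℝ) * ‖w 1‖) - ((M + 1 : ℕ) : ℝ) * (2 * Phi ‖w 0‖)) *
          (Real.exp ‖w 1‖ * (M * T j ‖w 0‖ * Real.exp (M * Phi ‖w 0‖))) := by gcongr
      _ = M * (T j ‖w 0‖ * Real.exp (-(M * ‖w 1‖) - (M + 2) * Phi ‖w 0‖)) := by
          have : Real.exp (-(M * ‖w 1‖) - (M + 2) * Phi ‖w 0‖) =
              Real.exp (-(((M + 1 : ℕ) : ℝ) * ‖w 1‖) - ((M + 1 : ℕ) : ℝ) * (2 * Phi ‖w 0‖)) *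
              Real.exp ‖w 1‖ * Real.exp (M * Phi ‖w 0‖) := by
            rw [← Real.exp_add, ← Real.exp_add]
            congr 1
            push_cast
            ring
          rw [this]; ring
      _ ≤ _ := by
          have : -(M * ‖w 1‖) - (M + 2) * Phi ‖w 0‖ ≤ -Phi ‖w 0‖ := by
            have g1 : 0 ≤ (M : ℝ) * ‖w 1‖ := by positivity
            have g2 : 0 ≤ (M : ℝ) * Phi ‖w 0‖ := by positivity
            nlinarith
          have := Real.exp_le_exp.2 this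
          gcongr
  calc wd' k w ^ (M + 1) * ‖∑ m ∈ Finset.range M,
      ((w 1) ^ m / m.factorial) * (Complex.exp (-m * (g (w 0) - P j (w 0))) - 1)‖
      ≤ wd' k w ^ (M + 1) * ∑ m ∈ Finset.range M,
      ‖((w 1) ^ m / m.factorial) * (Complex.exp (-m * (g (w 0) - P j (w 0))) - 1)‖ := by
        have := (wd'_pos k w).le
        gcongr
        exact norm_sum_le _ _
    _ = ∑ m ∈ Finset.range M, wd' k w ^ (M + 1) *
      ‖((w 1) ^ m / m.factorial) * (Complex.exp (-m * (g (w 0) - P j (w 0))) - 1)‖ := by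
        rw [Finset.mul_sum]
    _ ≤ ∑ _m ∈ Finset.range M, M * (T j ‖w 0‖ * Real.exp (-Phi ‖w 0‖)) := Finset.sum_le_sum e3
    _ = _ := by simp

theorem exp_tail (x : ℝ) (hx : 0 ≤ x) (n : ℕ) :
    Real.exp x - ∑ m ∈ Finset.range n, x ^ m / m.factorial ≤ (1/2) ^ n * Real.exp (2 * x) := by
  have hs : ∀ y : ℝ, HasSum (fun m : ℕ => y ^ m / m.factorial) (Real.exp y) := by
    intro y
    rw [Real.exp_eq_exp_ℝ]
    exact NormedSpace.expSeries_div_hasSum_exp y
  have h1 := (hs x).summable.sum_add_tsum_nat_add n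
  rw [(hs x).tsum_eq] at h1
  have h2 : Real.exp x - ∑ m ∈ Finset.range n, x ^ m / m.factorial = ∑' m : ℕ, x ^ (m + n) / (m + n).factorial := by
    rw [← h1]; ring
  rw [h2]
  have s1 : Summable fun m : ℕ => x ^ (m + n) / (m + n).factorial :=
    (summable_nat_add_iff (f := fun m : ℕ => x ^ m / m.factorial) n).2 (hs x).summable
  have s2 : Summable fun m : ℕ => (2 * x) ^ (m + n) / (m + n).factorial :=
    (summable_nat_add_iff (f := fun m : ℕ => (2 * x) ^ m / m.factorial) n).2 (hs (2 * x)).summable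
  have h3 : ∑' m : ℕ, (2 * x) ^ (m + n) / (m + n).factorial ≤ Real.exp (2 * x) := by
    have h4 := (hs (2 * x)).summable.sum_add_tsum_nat_add n
    rw [(hs (2 * x)).tsum_eq] at h4
    have h5 : 0 ≤ ∑ m ∈ Finset.range n, (2 * x) ^ m / m.factorial :=
      Finset.sum_nonneg (fun m _ => by positivity)
    linarith
  calc ∑' m : ℕ, x ^ (m + n) / (m + n).factorial
      ≤ ∑' m : ℕ, (1/2) ^ n * ((2 * x) ^ (m + n) / (m + n).factorial) := by
        refine Summable.tsum_le_tsum (fun m => ?_) s1 (s2.mul_left _)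
        have h6 : (1/2 : ℝ) ^ n * ((2 * x) ^ (m + n) / (m + n).factorial) = 2 ^ m * (x ^ (m + n) / (m + n).factorial) := by
          rw [mul_pow, pow_add 2 m n]
          field_simp
          rw [← mul_pow]
          norm_num
        rw [h6]
        have h7 : 0 ≤ x ^ (m + n) / (m + n).factorial := by positivity
        have h8 : (1 : ℝ) ≤ 2 ^ m := one_le_pow₀ (by norm_num)
        nlinarith
    _ = (1/2) ^ n * ∑' m : ℕ, (2 * x) ^ (m + n) / (m + n).factorial := tsum_mul_left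
    _ ≤ _ := by gcongr

theorem pol_close (k M : ℕ) (w : Cn (k + 2)) :
    wd' k w ^ 2 * ‖pol k M w - uu k w‖ ≤ (1/2) ^ M := by
  have e1 : ‖pol k M w - uu k w‖ ≤ (1/2) ^ M * Real.exp (2 * ‖w 1‖) := by
    rw [norm_sub_rev]
    exact (Complex.norm_exp_sub_sum_le_exp_norm_sub_sum (w 1) M).trans (exp_tail _ (norm_nonneg _) M)
  have e2 : wd' k w ^ 2 ≤ Real.exp (-(2 * ‖w 1‖)) := by
    have f1 : wd' k w ^ 2 ≤ h1 k w ^ 2 := by
      have := wd'_le_h1 k w
      have := (wd'_pos k w).le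
      gcongr
    refine f1.trans ((h1_pow k 2 w).trans ?_)
    apply Real.exp_le_exp.2
    have := Phi_pos (norm_nonneg (w 0))
    push_cast
    linarith
  calc wd' k w ^ 2 * ‖pol k M w - uu k w‖ ≤ Real.exp (-(2 * ‖w 1‖)) * ((1/2) ^ M * Real.exp (2 * ‖w 1‖)) := by
        gcongr
    _ = (1/2) ^ M := by
        rw [Real.exp_neg]
        field_simp

theorem uu_bd (k : ℕ) (w : Cn (k + 2)) : wd' k w ^ 1 * ‖uu k w‖ ≤ 1 := by
  have e1 : ‖uu k w‖ ≤ Real.exp ‖w 1‖ := by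
    unfold uu
    rw [Complex.norm_exp]
    exact Real.exp_le_exp.2 (Complex.re_le_norm _)
  have e2 : wd' k w ^ 1 ≤ Real.exp (-‖w 1‖) := by
    have f1 : wd' k w ^ 1 ≤ h1 k w ^ 1 := by
      have := wd'_le_h1 k w
      have := (wd'_pos k w).le
      gcongr
    refine f1.trans ((h1_pow k 1 w).trans ?_)
    apply Real.exp_le_exp.2
    have := Phi_pos (norm_nonneg (w 0))
    push_cast
    linarith
  calc wd' k w ^ 1 * ‖uu k w‖ ≤ Real.exp (-‖w 1‖) * Real.exp ‖w 1‖ := by gcongr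
    _ = 1 := by rw [← Real.exp_add]; simp

theorem uu_mem (k : ℕ) : uu k ∈ O (wd' k) := mem_O_of (wd' k) (wd'_pos k) (diff_uu k) (uu_bd k)

theorem pol_mem (k M : ℕ) : pol k M ∈ O (wd' k) := by
  refine mem_O_of (wd' k) (wd'_pos k) (diff_pol k M) (N := 2) (C := (1/2) ^ M + 1) (fun w => ?_)
  have e1 := pol_close k M w
  have e2 := uu_bd k w
  have e3 : ‖pol k M w‖ ≤ ‖pol k M w - uu k w‖ + ‖uu k w‖ := by
    have := norm_add_le (pol k M w - uu k w) (uu k w)
    simpa using this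
  have e4 : wd' k w ^ 2 ≤ wd' k w ^ 1 := pow_le_pow_of_le_one (wd'_pos k w).le (wd'_le_one k w) (by norm_num)
  calc wd' k w ^ 2 * ‖pol k M w‖ ≤ wd' k w ^ 2 * (‖pol k M w - uu k w‖ + ‖uu k w‖) := by gcongr
    _ = wd' k w ^ 2 * ‖pol k M w - uu k w‖ + wd' k w ^ 2 * ‖uu k w‖ := by ring
    _ ≤ (1/2) ^ M + wd' k w ^ 1 * ‖uu k w‖ := by gcongr
    _ ≤ _ := by linarith

/-- The polynomials are bornological limits. -/
theorem pol_mem_L (k M : ℕ) : (⟨pol k M, pol_mem k M⟩ : O (wd' k)) ∈ L (wd k) (wd' k) := by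
  refine ⟨fun j => ⟨Fs k M j, mem_O_wd' (Fs_mem k M j)⟩, fun j => ⟨Fs k M j, Fs_mem k M j, fun _ _ => rfl⟩,
    M + 1, fun ε hε => ?_⟩
  obtain ⟨k0, hk0⟩ := tail_small (ε := ε / (M * M + 1)) (by positivity)
  refine ⟨k0, fun j hj w _ => ?_⟩
  refine (Fs_close k M j w).trans ?_
  have h1 := hk0 j hj ‖w 0‖ (norm_nonneg _)
  have h2 : 0 ≤ T j ‖w 0‖ * Real.exp (-Phi ‖w 0‖) :=
    mul_nonneg (T_nonneg j (norm_nonneg _)) (Real.exp_pos _).le
  calc (M : ℝ) * (M * (T j ‖w 0‖ * Real.exp (-Phi ‖w 0‖))) ≤ M * (M * (ε / (M * M + 1))) := by gcongr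
    _ = ε * (M * M / (M * M + 1)) := by ring
    _ ≤ ε * 1 := by
        gcongr
        rw [div_le_one (by positivity)]
        linarith
    _ = ε := mul_one ε

theorem L_sub_closure {n : ℕ} (δ δ' : Weight n) : L δ δ' ⊆ @closure (O δ') (indTop δ') (R δ δ') := by
  rintro u ⟨v, hv, N, h⟩
  refine mem_closure_of_step δ' _ u N (fun ε hε => ?_)
  obtain ⟨K0, hK⟩ := h ε hε
  exact ⟨v K0, hv K0, hK K0 le_rfl⟩

theorem R_sub_L {n : ℕ} (δ δ' : Weight n) : R δ δ' ⊆ L δ δ' := by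
  intro u hu
  exact ⟨fun _ => u, fun _ => hu, 0, fun ε hε => ⟨0, fun _ _ z _ => by simpa using hε.le⟩⟩

theorem uu_mem_closure (k : ℕ) :
    (⟨uu k, uu_mem k⟩ : O (wd' k)) ∈ @closure (O (wd' k)) (indTop (wd' k)) (R (wd k) (wd' k)) := by
  rw [← @closure_closure (O (wd' k)) (indTop (wd' k)) (R (wd k) (wd' k))]
  refine mem_closure_of_step (wd' k) _ _ 2 (fun ε hε => ?_)
  obtain ⟨M, hM⟩ := exists_pow_lt_of_lt_one hε (by norm_num : (1/2 : ℝ) < 1)
  exact ⟨⟨pol k M, pol_mem k M⟩, L_sub_closure _ _ (pol_mem_L k M), fun w _ =>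
    (pol_close k M w).trans hM.le⟩

theorem G_uu (k m : ℕ) : G k m (uu k) 0 = 1 := by
  unfold G uu
  simp only [emb_one]
  rw [iteratedDeriv_eq_iterate, Complex.iter_deriv_exp]
  simp

theorem uu_not_mem_L (k : ℕ) : (⟨uu k, uu_mem k⟩ : O (wd' k)) ∉ L (wd k) (wd' k) := by
  rintro ⟨v, hv, N, h⟩
  set m := 100 * (N + 1 + 1) with hm
  set lo := Real.exp (-(2 + k + 2 * Phi 1)) with hlo
  have hlo0 : 0 < lo := Real.exp_pos _
  obtain ⟨K0, hK⟩ := h (lo ^ N / (2 * m.factorial)) (by positivity)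
  obtain ⟨F, hF, hvF⟩ := hv K0
  have hvF' : (v K0 : Cn (k + 2) → ℂ) = F := funext (fun z => hvF z (wd'_pos k z))
  have hclose := hK K0 le_rfl
  rw [hvF'] at hclose
  set ε := lo ^ N / (2 * m.factorial) with hε
  obtain ⟨-, hFd, N0, C0, hFb⟩ := hF
  have hFdiff : Differentiable ℂ F := by
    intro z
    exact (hFd z (wd_pos k z)).differentiableAt (by
      have : {z | 0 < wd k z} = Set.univ := Set.eq_univ_of_forall (fun z => wd_pos k z)
      rw [this]; exact univ_mem)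
  have hzero : G k m F 0 = 0 := by
    refine G_zero k hFdiff (N := N0) (M := N + 1) (C0 := C0) (C1 := ε + 1)
      (fun w => hFb w (wd_pos k w)) (fun w => ?_) m le_rfl
    rw [← wd'_apply]
    have hp := (wd'_pos k w).le
    have h1 := wd'_le_one k w
    have e1 := hclose w (wd'_pos k w)
    have e2 := uu_bd k w
    have e3 : ‖F w‖ ≤ ‖F w - uu k w‖ + ‖uu k w‖ := by
      have := norm_add_le (F w - uu k w) (uu k w)
      simpa using this
    have e4 : wd' k w ^ (N + 1) ≤ wd' k w ^ 1 := pow_le_pow_of_le_one hp h1 (by omega)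
    have e5 : wd' k w ^ (N + 1) ≤ wd' k w ^ N := pow_le_pow_of_le_one hp h1 (by omega)
    calc wd' k w ^ (N + 1) * ‖F w‖ ≤ wd' k w ^ (N + 1) * (‖F w - uu k w‖ + ‖uu k w‖) := by gcongr
      _ = wd' k w ^ (N + 1) * ‖F w - uu k w‖ + wd' k w ^ (N + 1) * ‖uu k w‖ := by ring
      _ ≤ wd' k w ^ N * ‖F w - uu k w‖ + wd' k w ^ 1 * ‖uu k w‖ := by gcongr
      _ ≤ ε + 1 := add_le_add e1 e2
  have hdiff : ‖G k m (fun w => F w - uu k w) 0‖ ≤ 1 / 2 := by
    have e1 : ∀ ζ : ℂ, ‖ζ‖ = 1 → ‖F (emb k 0 ζ) - uu k (emb k 0 ζ)‖ ≤ ε / lo ^ N := by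
      intro ζ hζ
      have f1 : lo ≤ reg (h1 k) (emb k 0 ζ) := by
        refine le_reg_of_ball (fun w => (h1_pos k w).le) (ρ := 1) ?_ (fun w' hw' => ?_)
        · apply Real.exp_le_one_iff.2
          have : (0 : ℝ) ≤ k := by positivity
          have := Phi_pos (r := 1) zero_le_one
          linarith
        · apply Real.exp_le_exp.2
          have g1 := coord_le' (emb k 0 ζ) w' 1
          have g2 := tau_le (emb k 0 ζ) w'
          rw [tau_emb] at g2
          rw [emb_one] at g1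
          have g3 : Phi ‖w' 0‖ ≤ Phi 1 := by
            refine Phi_mono (norm_nonneg _) ?_
            have := coord_le' (emb k 0 ζ) w' 0
            rw [emb_zero, norm_zero] at this
            linarith
          have g4 : (k : ℝ) * dist (emb k 0 ζ) w' ≤ k * 1 := by gcongr
          linarith
      have f2 := hclose (emb k 0 ζ) (wd'_pos k _)
      rw [le_div_iff₀ (by positivity)]
      refine le_trans ?_ f2
      rw [mul_comm]
      have : lo ^ N ≤ wd' k (emb k 0 ζ) ^ N := by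
        have := hlo0.le
        rw [wd'_apply]
        gcongr
      gcongr
    have e2 := G_le (F := fun w => F w - uu k w) (hFdiff.sub (diff_uu k)) m 0 one_pos e1
    rw [one_pow, div_one] at e2
    refine e2.trans (le_of_eq ?_)
    rw [hε]
    field_simp
  have hlin : G k m (fun w => F w - uu k w) 0 = G k m F 0 - G k m (uu k) 0 := by
    unfold G
    exact iteratedDeriv_fun_sub ((diff_slice hFdiff 0).contDiff.contDiffAt) ((diff_slice (diff_uu k) 0).contDiff.contDiffAt)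
  rw [hlin, hzero, G_uu, zero_sub, norm_neg, norm_one] at hdiff
  norm_num at hdiff

theorem main (k : ℕ) : ∃ δ δ' : Weight (k + 2), LipschitzWith 1 δ ∧ LipschitzWith 1 δ' ∧
    (∀ z, 0 < δ' z ∧ δ' z ≤ δ z) ∧
    (∃ u ∈ @closure (O δ') (indTop δ') (R δ δ'), u ∉ L δ δ') ∧
    ¬ @IsClosed (O δ') (indTop δ') (L δ δ') := by
  refine ⟨wd k, wd' k, lipschitz_reg (fun w => (h0_pos k w).le), lipschitz_reg (fun w => (h1_pos k w).le),
    fun z => ⟨wd'_pos k z, wd'_le_wd k z⟩, ⟨_, uu_mem_closure k, uu_not_mem_L k⟩, fun hcl => ?_⟩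
  have hsub := @closure_minimal (O (wd' k)) (indTop (wd' k)) _ _ (R_sub_L _ _) hcl
  exact uu_not_mem_L k (hsub (uu_mem_closure k))

end Pool.Agent.X170.Fer
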