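import Mathlib

/-!
The largest `1`-Lipschitz minorant of a nonnegative function.
-/

set_option autoImplicit false

open Filter Topology Metric

namespace Pool.Agent.X170.Fer

variable {E : Type*} [PseudoMetricSpace E]

/-- The largest `1`-Lipschitz minorant of `h ≥ 0`. -/
noncomputable def reg (h : E → ℝ) (w : E) : ℝ := ⨅ w', (h w' + dist w w')

theorem reg_bdd {h : E → ℝ} (hh : ∀ w, 0 ≤ h w) (w : E) :
    BddBelow (Set.range fun w' => h w' + dist w w') :=
  ⟨0, by rintro _ ⟨w', rfl⟩; exact add_nonneg (hh _) dist_nonneg⟩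

theorem reg_le' {h : E → ℝ} (hh : ∀ w, 0 ≤ h w) (w w' : E) : reg h w ≤ h w' + dist w w' :=
  ciInf_le (reg_bdd hh w) w'

theorem reg_le {h : E → ℝ} (hh : ∀ w, 0 ≤ h w) (w : E) : reg h w ≤ h w := by
  simpa using reg_le' hh w w

theorem le_reg {h : E → ℝ} {w : E} {c : ℝ} (hc : ∀ w', c ≤ h w' + dist w w') : c ≤ reg h w :=
  haveI : Nonempty E := ⟨w⟩
  le_ciInf hc

theorem reg_nonneg {h : E → ℝ} (hh : ∀ w, 0 ≤ h w) (w : E) : 0 ≤ reg h w :=
  le_reg (fun w' => add_nonneg (hh _) dist_nonneg)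

theorem reg_mono {h h' : E → ℝ} (hh : ∀ w, 0 ≤ h w) (hle : ∀ w, h w ≤ h' w) (w : E) :
    reg h w ≤ reg h' w :=
  le_reg (fun w' => (reg_le' hh w w').trans (by linarith [hle w']))

theorem le_reg_of_ball {h : E → ℝ} (hh : ∀ w, 0 ≤ h w) {w : E} {c ρ : ℝ} (hcρ : c ≤ ρ)
    (hb : ∀ w', dist w w' < ρ → c ≤ h w') : c ≤ reg h w := by
  refine le_reg (fun w' => ?_)
  by_cases hw : dist w w' < ρ
  · exact (hb w' hw).trans (le_add_of_nonneg_right dist_nonneg)
  · push Not at hw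
    linarith [hh w']

theorem lipschitz_reg {h : E → ℝ} (hh : ∀ w, 0 ≤ h w) : LipschitzWith 1 (reg h) := by
  refine LipschitzWith.of_le_add (fun x y => ?_)
  have h1 : reg h x - dist x y ≤ reg h y := by
    refine le_reg (fun w' => ?_)
    have h2 := reg_le' hh x w'
    have h3 := dist_triangle x y w'
    linarith
  linarith

end Pool.Agent.X170.Fer
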