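import Pool.Agent.X170.Fer.Reg
import Pool.Agent.X170.Fer.Gap2
import Pool.Agent.X170.Fer.Coef

/-!
The two weights.
-/

set_option autoImplicit false

open Metric Set Filter Topology

namespace Pool.Agent.X170.Fer

/-- `τ(w) = ∑_{j ≥ 2} |w_j|`. -/
noncomputable def tau {k : ℕ} (w : Cn (k + 2)) : ℝ := ∑ j : Fin k, ‖w j.succ.succ‖

theorem tau_nonneg {k : ℕ} (w : Cn (k + 2)) : 0 ≤ tau w := Finset.sum_nonneg (fun _ _ => norm_nonneg _)

noncomputable def h0 (k : ℕ) (w : Cn (k + 2)) : ℝ :=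
  Real.exp (-Real.sqrt (Phi ‖w 0‖) - tau w) / (1 + ‖w 1‖ * Real.exp (-(g (w 0)).re))

noncomputable def h1 (k : ℕ) (w : Cn (k + 2)) : ℝ :=
  Real.exp (-‖w 1‖ - tau w - 2 * Phi ‖w 0‖)

theorem den_pos {k : ℕ} (w : Cn (k + 2)) : 0 < 1 + ‖w 1‖ * Real.exp (-(g (w 0)).re) := by positivity

theorem h0_pos (k : ℕ) (w : Cn (k + 2)) : 0 < h0 k w := div_pos (Real.exp_pos _) (den_pos w)

theorem h1_pos (k : ℕ) (w : Cn (k + 2)) : 0 < h1 k w := Real.exp_pos _

theorem sqrt_le_Phi {r : ℝ} (hr : 0 ≤ r) : Real.sqrt (Phi r) ≤ Phi r := by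
  have h := one_le_Phi hr
  rw [Real.sqrt_le_left (by linarith)]
  nlinarith

theorem h1_le_h0 (k : ℕ) (w : Cn (k + 2)) : h1 k w ≤ h0 k w := by
  unfold h0 h1
  rw [le_div_iff₀ (den_pos w)]
  have hr := norm_nonneg (w 0)
  have e1 : 1 + ‖w 1‖ * Real.exp (-(g (w 0)).re) ≤ Real.exp (‖w 1‖ + Phi ‖w 0‖) := by
    have e2 : -(g (w 0)).re ≤ Phi ‖w 0‖ :=
      (neg_le_abs _).trans ((Complex.abs_re_le_norm _).trans (norm_g_le _))
    have e3 : Real.exp (-(g (w 0)).re) ≤ Real.exp (Phi ‖w 0‖) := Real.exp_le_exp.2 e2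
    have e4 : 1 ≤ Real.exp (Phi ‖w 0‖) := Real.one_le_exp (by linarith [one_le_Phi hr])
    have e5 : ‖w 1‖ + 1 ≤ Real.exp ‖w 1‖ := Real.add_one_le_exp _
    rw [Real.exp_add]
    calc 1 + ‖w 1‖ * Real.exp (-(g (w 0)).re) ≤ Real.exp (Phi ‖w 0‖) + ‖w 1‖ * Real.exp (Phi ‖w 0‖) := by
          gcongr
      _ = (‖w 1‖ + 1) * Real.exp (Phi ‖w 0‖) := by ring
      _ ≤ _ := by gcongr
  calc Real.exp (-‖w 1‖ - tau w - 2 * Phi ‖w 0‖) * (1 + ‖w 1‖ * Real.exp (-(g (w 0)).re))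
      ≤ Real.exp (-‖w 1‖ - tau w - 2 * Phi ‖w 0‖) * Real.exp (‖w 1‖ + Phi ‖w 0‖) := by gcongr
    _ = Real.exp (-Phi ‖w 0‖ - tau w) := by rw [← Real.exp_add]; ring_nf
    _ ≤ _ := Real.exp_le_exp.2 (by linarith [sqrt_le_Phi hr])

theorem h0_le_one (k : ℕ) (w : Cn (k + 2)) : h0 k w ≤ 1 := by
  unfold h0
  rw [div_le_one (den_pos w)]
  have e1 : Real.exp (-Real.sqrt (Phi ‖w 0‖) - tau w) ≤ 1 :=
    Real.exp_le_one_iff.2 (by linarith [tau_nonneg w, Real.sqrt_nonneg (Phi ‖w 0‖)])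
  have e2 : 0 ≤ ‖w 1‖ * Real.exp (-(g (w 0)).re) := by positivity
  linarith

theorem coord_le {n : ℕ} (w w' : Cn n) (i : Fin n) : ‖w' i - w i‖ ≤ dist w w' := by
  rw [dist_comm, dist_eq_norm]
  exact PiLp.norm_apply_le (w' - w) i

theorem coord_le' {n : ℕ} (w w' : Cn n) (i : Fin n) : ‖w' i‖ ≤ ‖w i‖ + dist w w' := by
  have e1 := coord_le w w' i
  have e2 := norm_sub_norm_le (w' i) (w i)
  linarith

theorem tau_le {k : ℕ} (w w' : Cn (k + 2)) : tau w' ≤ tau w + k * dist w w' := by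
  unfold tau
  calc ∑ j : Fin k, ‖w' j.succ.succ‖ ≤ ∑ j : Fin k, (‖w j.succ.succ‖ + dist w w') :=
        Finset.sum_le_sum (fun j _ => coord_le' w w' _)
    _ = _ := by rw [Finset.sum_add_distrib]; simp

theorem tau_emb (k : ℕ) (z ζ : ℂ) : tau (emb k z ζ) = 0 := by
  unfold tau
  simp [emb_succ]

theorem reg_h1_pos (k : ℕ) (w : Cn (k + 2)) : 0 < reg (h1 k) w := by
  have e1 : Real.exp (-(‖w 1‖ + 1) - (tau w + k) - 2 * Phi (‖w 0‖ + 1)) ≤ reg (h1 k) w := by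
    refine le_reg_of_ball (fun w => (h1_pos k w).le) (ρ := 1) ?_ (fun w' hw' => ?_)
    · apply Real.exp_le_one_iff.2
      have := tau_nonneg w
      have := norm_nonneg (w 1)
      have := Phi_pos (r := ‖w 0‖ + 1) (by positivity)
      have : (0 : ℝ) ≤ k := by positivity
      linarith
    · apply Real.exp_le_exp.2
      have f1 := coord_le' w w' 1
      have f2 := tau_le w w'
      have f3 : Phi ‖w' 0‖ ≤ Phi (‖w 0‖ + 1) := Phi_mono (norm_nonneg _) (by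
        have := coord_le' w w' 0
        linarith)
      have f4 : (k : ℝ) * dist w w' ≤ k * 1 := by gcongr
      linarith
  exact lt_of_lt_of_le (Real.exp_pos _) e1

theorem reg_h0_pos (k : ℕ) (w : Cn (k + 2)) : 0 < reg (h0 k) w :=
  lt_of_lt_of_le (reg_h1_pos k w) (reg_mono (fun w => (h1_pos k w).le) (h1_le_h0 k) w)

theorem h0_small (k : ℕ) {ε : ℝ} (hε : 0 < ε) : ∃ Rr : ℝ, ∀ w : Cn (k + 2), ε ≤ h0 k w → ‖w‖ ≤ Rr := by
  set Lg := |Real.log ε| with hLg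
  refine ⟨4 * Lg + ε⁻¹ * Real.exp (Phi (4 * Lg)) + Lg, fun w hw => ?_⟩
  have hr := norm_nonneg (w 0)
  have hLg0 : 0 ≤ Lg := abs_nonneg _
  -- first factor
  have e1 : h0 k w ≤ Real.exp (-Real.sqrt (Phi ‖w 0‖) - tau w) := by
    unfold h0
    refine div_le_self (Real.exp_pos _).le ?_
    have : 0 ≤ ‖w 1‖ * Real.exp (-(g (w 0)).re) := by positivity
    linarith
  have e2 : Real.sqrt (Phi ‖w 0‖) + tau w ≤ Lg := by
    have := Real.log_le_log hε (hw.trans e1)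
    rw [Real.log_exp] at this
    have := neg_abs_le (Real.log ε)
    linarith
  have e3 : ‖w 0‖ / 4 ≤ Real.sqrt (Phi ‖w 0‖) := by
    apply Real.le_sqrt_of_sq_le
    have := sq_le_Phi hr
    linarith
  have e4 : ‖w 0‖ ≤ 4 * Lg := by linarith [tau_nonneg w]
  have e5 : tau w ≤ Lg := by linarith [Real.sqrt_nonneg (Phi ‖w 0‖)]
  have e6 : ‖w 1‖ ≤ ε⁻¹ * Real.exp (Phi (4 * Lg)) := by
    have f1 : h0 k w * (1 + ‖w 1‖ * Real.exp (-(g (w 0)).re)) ≤ 1 := by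
      unfold h0
      rw [div_mul_cancel₀ _ (den_pos w).ne']
      exact Real.exp_le_one_iff.2 (by linarith [tau_nonneg w, Real.sqrt_nonneg (Phi ‖w 0‖)])
    have f2 : ε * (‖w 1‖ * Real.exp (-(g (w 0)).re)) ≤ 1 := by
      have f3 : 0 ≤ ‖w 1‖ * Real.exp (-(g (w 0)).re) := by positivity
      have := h0_pos k w
      nlinarith
    have f4 : (g (w 0)).re ≤ Phi (4 * Lg) :=
      (Complex.re_le_norm _).trans ((norm_g_le _).trans (Phi_mono hr e4))
    have f5 : Real.exp (-Phi (4 * Lg)) ≤ Real.exp (-(g (w 0)).re) := Real.exp_le_exp.2 (by linarith)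
    have f6 : ε * (‖w 1‖ * Real.exp (-Phi (4 * Lg))) ≤ 1 := by
      refine le_trans ?_ f2
      gcongr
    rw [Real.exp_neg] at f6
    have f7 := Real.exp_pos (Phi (4 * Lg))
    rw [inv_mul_eq_div, le_div_iff₀ hε]
    have f8 : ε * (‖w 1‖ * (Real.exp (Phi (4 * Lg)))⁻¹) = (‖w 1‖ * ε) / Real.exp (Phi (4 * Lg)) := by
      field_simp
    rw [f8, div_le_one f7] at f6
    exact f6
  -- norm is at most the sum of the coordinates
  have e7 : ‖w‖ ≤ ‖w 0‖ + (‖w 1‖ + tau w) := by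
    have f1 : ‖w‖ ≤ ∑ i, ‖w i‖ := by
      have g1 : w = ∑ i, w i • EuclideanSpace.single i (1 : ℂ) := by
        ext j
        simp [Finset.sum_apply, Pi.single_apply]
      calc ‖w‖ = ‖∑ i, w i • EuclideanSpace.single i (1 : ℂ)‖ := by rw [← g1]
        _ ≤ ∑ i, ‖w i • EuclideanSpace.single i (1 : ℂ)‖ := norm_sum_le _ _
        _ = ∑ i, ‖w i‖ := Finset.sum_congr rfl (fun i _ => by simp [norm_smul])
    refine f1.trans (le_of_eq ?_)
    rw [Fin.sum_univ_succ, Fin.sum_univ_succ]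
    rfl
  linarith

/-- Regularization tends to `0` at infinity. -/
theorem reg_lim {k : ℕ} {h : Cn (k + 2) → ℝ} (hh : ∀ w, 0 ≤ h w) (hle : ∀ w, h w ≤ h0 k w) :
    Tendsto (reg h) (cocompact (Cn (k + 2))) (𝓝 0) := by
  rw [tendsto_order]
  constructor
  · intro a ha
    exact Eventually.of_forall (fun w => lt_of_lt_of_le ha (reg_nonneg hh w))
  · intro a ha
    obtain ⟨Rr, hR⟩ := h0_small k ha
    rw [Filter.Eventually, mem_cocompact]
    refine ⟨closedBall 0 Rr, isCompact_closedBall _ _, fun w hw => ?_⟩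
    by_contra hcon
    simp only [Set.mem_ofPred_eq, not_lt] at hcon
    exact hw (mem_closedBall_zero_iff.2 (hR w (hcon.trans ((reg_le hh w).trans (hle w)))))

/-- The weight `δ`. -/
noncomputable def wd (k : ℕ) : Weight (k + 2) where
  toFun := reg (h0 k)
  cont := (lipschitz_reg (fun w => (h0_pos k w).le)).continuous
  nonneg := reg_nonneg (fun w => (h0_pos k w).le)
  lim := reg_lim (fun w => (h0_pos k w).le) (fun _ => le_rfl)

/-- The weight `δ'`. -/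
noncomputable def wd' (k : ℕ) : Weight (k + 2) where
  toFun := reg (h1 k)
  cont := (lipschitz_reg (fun w => (h1_pos k w).le)).continuous
  nonneg := reg_nonneg (fun w => (h1_pos k w).le)
  lim := reg_lim (fun w => (h1_pos k w).le) (h1_le_h0 k)

end Pool.Agent.X170.Fer
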